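import Pool.Agent.K6.H47.HW.Inv

set_option autoImplicit false

/-! The factorizations. -/

namespace Pool.Agent.K6.H47.HW

open Pool.Agent.Y524H

section blocks

variable {M : Type} [Group M]

theorem swap_block (r b : List M) (hb : b.prod = 1) : HurwitzEquiv (r ++ b) (b ++ r) := by
  induction r with
  | nil => simpa using HurwitzEquiv.refl b
  | cons x r ih =>
    have h1 := ih.append [x] []
    have h2 := (move_left b x).append [] r
    rw [hb] at h2
    have e : 1 * x * 1⁻¹ = x := by group
    rw [e] at h2
    have e1 : [x] ++ (r ++ b) ++ [] = x :: r ++ b := by simp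
    have e2 : [x] ++ (b ++ r) ++ [] = x :: (b ++ r) := by simp
    have e3 : [] ++ (b ++ [x]) ++ r = b ++ x :: r := by simp
    have e4 : [] ++ (x :: b) ++ r = x :: (b ++ r) := by simp
    rw [e1, e2] at h1
    rw [e3, e4] at h2
    exact h1.trans h2.symm

theorem prod_conj (b : List M) (hb : b.prod = 1) (g : M) : (b.map (MulAut.conj g)).prod = 1 := by
  rw [List.prod_hom, hb, map_one]

theorem block_entry {u b : List M} (hb : b.prod = 1) {s : M} (hs : s ∈ u) :
    HurwitzEquiv (u ++ b) (u ++ b.map (MulAut.conj s)) := by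
  obtain ⟨l, r, rfl⟩ := List.append_of_mem hs
  have hb' := prod_conj b hb s
  have h1 := (swap_block r b hb).append (l ++ [s]) []
  have h2 := (move_right s b).append l r
  have h3 := (move_left (b.map (MulAut.conj s)) s).append l r
  rw [hb'] at h3
  have e : 1 * s * 1⁻¹ = s := by group
  rw [e] at h3
  have h4 := (swap_block r (b.map (MulAut.conj s)) hb').append (l ++ [s]) []
  have e1 : (l ++ [s]) ++ (r ++ b) ++ [] = l ++ s :: r ++ b := by simp
  have e2 : (l ++ [s]) ++ (b ++ r) ++ [] = l ++ (s :: b) ++ r := by simp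
  have e3 : (l ++ [s]) ++ (r ++ b.map (MulAut.conj s)) ++ [] =
      l ++ s :: r ++ b.map (MulAut.conj s) := by simp
  have e4 : (l ++ [s]) ++ (b.map (MulAut.conj s) ++ r) ++ [] =
      l ++ (s :: b.map (MulAut.conj s)) ++ r := by simp
  rw [e1, e2] at h1
  rw [e3, e4] at h4
  exact h1.trans (h2.trans (h3.trans h4.symm))

/-- A block with product `1` may be conjugated by elements of the group generated by the other
entries. -/
theorem block_conj {u : List M} {g : M} (hg : g ∈ Subgroup.closure {x | x ∈ u}) :
    ∀ b : List M, b.prod = 1 → HurwitzEquiv (u ++ b) (u ++ b.map (MulAut.conj g)) := by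
  induction hg using Subgroup.closure_induction with
  | mem s hs => exact fun b hb => block_entry hb hs
  | one =>
    intro b _
    have : b.map (MulAut.conj (1 : M)) = b := by simp
    rw [this]
    exact HurwitzEquiv.refl _
  | mul x y _ _ hx hy =>
    intro b hb
    have h1 := hx _ (prod_conj b hb y)
    rw [conj_mul_map] at h1
    exact (hy b hb).trans h1
  | inv x _ hx =>
    intro b hb
    have h1 := hx _ (prod_conj b hb x⁻¹)
    rw [conj_mul_map] at h1
    have : b.map (MulAut.conj (x * x⁻¹)) = b := by simp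
    rw [this] at h1
    exact h1.symm

end blocks

/-- Two more blocks. -/
def Aw : List Entry := R0e.map (cj [lA 0]) ++ R0e.map (cj [lA 2])

/-- The first factorization. -/
def YY (rl : List (List (Fin 2 × Bool))) : List Entry := tau rl ++ Aw ++ R0e

/-- The second factorization. -/
def XX (rl : List (List (Fin 2 × Bool))) (r : List (Fin 2 × Bool)) : List Entry :=
  tau rl ++ Aw ++ R0e.map (cj (dw r))

theorem block_prod (s : Word) : ((R0e.map (cj s)).map dehn).prod = 1 := by
  rw [map_dehn_cj, List.prod_hom, R0e_prod, map_one]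

theorem XX_isFactorization (rl : List (List (Fin 2 × Bool))) (r : List (Fin 2 × Bool)) :
    IsFactorization (XX rl r) := by
  have h := tau_isFactorization rl
  rw [IsFactorization] at h ⊢
  rw [XX, Aw, List.map_append, List.map_append, List.map_append, List.prod_append,
    List.prod_append, List.prod_append, h, block_prod, block_prod, block_prod]
  simp

theorem YY_isFactorization (rl : List (List (Fin 2 × Bool))) : IsFactorization (YY rl) := by
  have h := tau_isFactorization rl
  rw [IsFactorization] at h ⊢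
  rw [YY, Aw, List.map_append, List.map_append, List.map_append, List.prod_append,
    List.prod_append, List.prod_append, h, block_prod, block_prod, R0e_prod]
  simp

/-- If the word is trivial in the group, then the factorizations are Hurwitz equivalent. -/
theorem equiv_XX (rl : List (List (Fin 2 × Bool))) (r : List (Fin 2 × Bool))
    (hr : FreeGroup.mk r ∈ Subgroup.normalClosure (Rel rl)) :
    HurwitzEquiv ((YY rl).map dehn) ((XX rl r).map dehn) := by
  have h1 : qq (ev (dw r)) ∈ HH rl := by
    rw [ev_dw, map_mul, map_mul, map_mul, map_inv, map_inv]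
    apply comm_HH rl
    · exact G_mem rl _ hr
    · apply Subgroup.subset_closure
      refine ⟨[lA 1], ?_, by rw [ev_single]⟩
      simp [S0]
  have h2 : HH rl ≤ Subgroup.closure {x | x ∈ (tau rl ++ Aw).map dehn} := by
    apply Subgroup.closure_mono
    intro x hx
    simp only [Set.mem_ofPred_eq, List.map_append, List.mem_append] at hx ⊢
    exact Or.inl hx
  have h3 := block_conj (h2 h1) (R0e.map dehn) R0e_prod
  have e1 : (YY rl).map dehn = (tau rl ++ Aw).map dehn ++ R0e.map dehn := by
    rw [YY, List.map_append]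
  have e2 : (XX rl r).map dehn =
      (tau rl ++ Aw).map dehn ++ (R0e.map dehn).map (MulAut.conj (qq (ev (dw r)))) := by
    rw [XX, List.map_append, map_dehn_cj]
  rw [e1, e2]
  exact h3

/-- The lift of the twist with a given name. -/
def li (e : Entry) : MulAut Pi1 :=
  ev e.2 * (if e.1 = 0 then twist (.inl 0) else sepTwist e.1) * (ev e.2)⁻¹

theorem dehn_li (e : Entry) : dehn e = qq (li e) := rfl

theorem li_cj (s : Word) (e : Entry) : li (cj s e) = ev s * li e * (ev s)⁻¹ := by
  have h1 : li (cj s e) = ev (s ++ e.2) * (if e.1 = 0 then twist (.inl 0) else sepTwist e.1) *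
    (ev (s ++ e.2))⁻¹ := rfl
  rw [h1, ev_append, li]
  simp only [mul_inv_rev, mul_assoc]

theorem li_zero (f : Word) : li (0, f) = ev (f ++ [lA 0] ++ invWd f) := by
  rw [ev_append, ev_append, ev_invWd, ev_single]
  rfl

theorem li_three : li (3, []) = sepTwist 3 := by
  have h : ((3 : Fin 4), ([] : Word)).1 ≠ 0 := by decide
  unfold li
  rw [if_neg h]
  simp only [ev, List.map_nil, List.prod_nil, one_mul, inv_one, mul_one]

/-- The blocks of the second factorization. -/
theorem mem_XX (rl : List (List (Fin 2 × Bool))) (r : List (Fin 2 × Bool)) (s : Word)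
    (hs : s = [] ∨ s ∈ Sw rl ∨ s = [lA 0] ∨ s = [lA 2] ∨ s = dw r) (e : Entry) (he : e ∈ R0e) :
    cj s e ∈ XX rl r := by
  have h1 : cj s e ∈ R0e.map (cj s) := List.mem_map.2 ⟨e, he, rfl⟩
  rw [XX, Aw, tau]
  simp only [List.mem_append, List.mem_flatMap]
  rcases hs with rfl | hs | rfl | rfl | rfl
  · exact Or.inl (Or.inl (Or.inl he))
  · exact Or.inl (Or.inl (Or.inr ⟨s, hs, h1⟩))
  · exact Or.inl (Or.inr (Or.inl h1))
  · exact Or.inl (Or.inr (Or.inr h1))
  · exact Or.inr h1

/-- The blocks of the first factorization. -/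
theorem of_mem_YY (rl : List (List (Fin 2 × Bool))) (e : Entry) (he : e ∈ YY rl) :
    ∃ s, (s = [] ∨ s ∈ Sw rl ∨ s = [lA 0] ∨ s = [lA 2]) ∧ ∃ e' ∈ R0e, e = cj s e' := by
  rw [YY, Aw, tau] at he
  simp only [List.mem_append, List.mem_flatMap, List.mem_map] at he
  rcases he with ((he | ⟨s, hs, e', he', rfl⟩) | ⟨e', he', rfl⟩ | ⟨e', he', rfl⟩) | he
  · exact ⟨[], Or.inl rfl, e, he, rfl⟩
  · exact ⟨s, Or.inr (Or.inl hs), e', he', rfl⟩
  · exact ⟨_, Or.inr (Or.inr (Or.inl rfl)), e', he', rfl⟩
  · exact ⟨_, Or.inr (Or.inr (Or.inr rfl)), e', he', rfl⟩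
  · exact ⟨[], Or.inl rfl, e, he, rfl⟩

/-! The folding map. -/

/-- The table of the folding map. -/
def PF : List (List ℕ) := [[], [0], [], [2], [], [4], [], [0], [], [2], [], [4]]

/-- The generators of the free group of rank three. -/
def y3 (j : ℕ) : F3 := if h : j < 3 then FreeGroup.of ⟨j, h⟩ else 1

/-- The images of the generators. -/
def foldF (x : Gen) : F3 := den y3 (PF.getD (2 * x.1.val + if x.2 then 1 else 0) [])

theorem foldF_genOf (j : ℕ) : foldF (genOf j) = den y3 (PF.getD (j % 12) []) := by
  unfold foldF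
  congr 2
  unfold genOf
  by_cases h : j % 2 = 1
  · simp [h]; omega
  · simp [h]; omega

/-- The folding map to the free group of rank three. -/
def fold : Pi1 →* F3 :=
  PresentedGroup.toGroup (f := foldF) (by
    intro r hr
    rw [Set.mem_singleton_iff] at hr
    subst hr
    rw [zeta_eq, den_subst (FreeGroup.lift foldF) fv y3 PF]
    · have : subst PF zw = [] := by decide +kernel
      rw [this]
      rfl
    · intro j
      rw [fv, FreeGroup.lift_apply_of, foldF_genOf])

theorem fold_hasT : HasT fold y3 PF := by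
  intro j
  rw [← foldF_genOf]
  exact PresentedGroup.toGroup.of _

theorem fold_table {α : MulAut Pi1} {T : List (List ℕ)} (hα : IsTab vv α T)
    (h : comp PF T = PF) : ∀ x, fold (α x) = fold x := by
  have h1 : fold.comp α.toMonoidHom = fold := (fold_hasT.comp hα).ext (h.symm ▸ fold_hasT)
  exact fun x => DFunLike.congr_fun h1 x

/-- The folding map is preserved. -/
def FL (e : Entry) : Prop := ∀ x, fold (li e x) = fold x

theorem fold_li : ∀ e ∈ R0e, FL e := by
  have h : ∀ w : Word, ∀ T, tabW (w ++ [lA 0] ++ invWd w) = T → comp PF T = PF →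
      FL (0, w) := by
    intro w T hT hP
    rw [FL, li_zero]
    exact fold_table (ev_isTab _) (hT ▸ hP)
  have h0 : ∀ e ∈ r0e, FL e := by
    intro e he
    simp only [r0e, List.mem_cons, List.not_mem_nil, or_false] at he
    rcases he with rfl | rfl | rfl | rfl | rfl | rfl | rfl | rfl
    · exact h _ _ tT0_ok (by decide +kernel)
    · exact h _ _ tT1_ok (by decide +kernel)
    · exact h _ _ tT2_ok (by decide +kernel)
    · exact h _ _ tT3_ok (by decide +kernel)
    · exact h _ _ tT4_ok (by decide +kernel)
    · exact h _ _ tT5_ok (by decide +kernel)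
    · exact h _ _ tT6_ok (by decide +kernel)
    · rw [FL, li_three]
      exact fold_table (sep_isTab 3) (by decide +kernel)
  intro e he
  rw [R0e, List.mem_append] at he
  exact h0 e (he.elim id id)

theorem fold_surj : Function.Surjective fold := by
  rw [← MonoidHom.range_eq_top, eq_top_iff, ← FreeGroup.closure_range_of, Subgroup.closure_le]
  rintro _ ⟨i, rfl⟩
  refine ⟨vv (2 * i.val + 1), ?_⟩
  rw [fold_hasT]
  fin_cases i <;> simp [PF, den, dl, y3]

theorem forall_gen {P : ℕ → Prop} (hP : ∀ j < 12, P j) (hm : ∀ j, P (j % 12) → P j) (j : ℕ) :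
    P j := hm j (hP _ (Nat.mod_lt _ (by norm_num)))

theorem Phi_fold {Q : Type} [Group Q] (p : Fin 2 → Q) :
    Phi p 1 = (FreeGroup.lift ![p 0, 1, p 1]).comp fold := by
  apply MonoidHom.eq_of_eqOn_dense vv_gen
  rintro _ ⟨j, rfl⟩
  rw [MonoidHom.comp_apply, fold_hasT, Phi_one]
  have h : ∀ i < 12, den (yy p 1) ((PT []).getD i []) =
      (FreeGroup.lift ![p 0, 1, p 1]) (den y3 (PF.getD i [])) := by
    intro i hi
    interval_cases i <;> simp [PT, PF, den, dl, y3, yy]
  exact h _ (Nat.mod_lt _ (by norm_num))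

/-- If the group is not trivial, the first factorization has the property. -/
theorem good_YY (rl : List (List (Fin 2 × Bool))) (h : pp rl 0 ≠ 1) :
    Good ((YY rl).map dehn) := by
  refine ⟨PresentedGroup (Rel rl), inferInstance, Phi (pp rl) 1, ⟨vv 1, ?_⟩, ?_⟩
  · rw [Phi_vv]
    simpa [PT, den, dl, yy] using h
  · intro t ht
    rw [List.mem_map] at ht
    obtain ⟨e, he, rfl⟩ := ht
    obtain ⟨s, hs, e', he', rfl⟩ := of_mem_YY rl e he
    have hSt : ev s ∈ St rl := by
      rcases hs with rfl | hs | rfl | rfl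
      · exact (St rl).one_mem
      · exact Sw_St rl s hs
      · exact St_of_table rl (ev_isTab _) (by decide +kernel)
      · exact St_of_table rl (ev_isTab _) (by decide +kernel)
    rw [dehn_li, li_cj]
    refine Ok.of_free _ (fold.comp ((ev s)⁻¹ : MulAut Pi1).toMonoidHom)
      (fold_surj.comp ((ev s)⁻¹ : MulAut Pi1).surjective) ?_ (FreeGroup.lift ![pp rl 0, 1, pp rl 1]) ?_
    · intro x
      change fold ((ev s)⁻¹ ((ev s * li e' * (ev s)⁻¹) x)) = fold ((ev s)⁻¹ x)
      rw [← fold_li e' he' ((ev s)⁻¹ x)]
      congr 1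
      rw [← MulAut.mul_apply, ← MulAut.mul_apply]
      have : (ev s)⁻¹ * (ev s * li e' * (ev s)⁻¹) = li e' * (ev s)⁻¹ := by group
      rw [this]
    · rw [← MonoidHom.comp_assoc, ← Phi_fold]
      exact ((St rl).inv_mem hSt).symm

end Pool.Agent.K6.H47.HW
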