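import Mathlib

set_option autoImplicit false

/-! Centralizers in free groups. -/

namespace Pool.Agent.K6.H47.HW

open FreeGroup in
/-- The center of a free group with two different generators is trivial. -/
theorem central_eq_one {X : Type*} {x y : X} (hxy : x ≠ y) (v : FreeGroup X)
    (hv : ∀ w, v * w = w * v) : v = 1 := by
  classical
  by_contra hne
  have hL : v.toWord ≠ [] := fun h => hne (toWord_eq_nil_iff.1 h)
  have hred : IsReduced v.toWord := isReduced_toWord
  have hmk : mk v.toWord = v := mk_toWord
  obtain ⟨f, L1, hf⟩ := List.exists_cons_of_ne_nil hL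
  obtain ⟨L2, l, hl⟩ : ∃ L2 l, v.toWord = L2 ++ [l] :=
    ⟨v.toWord.dropLast, v.toWord.getLast hL, (List.dropLast_append_getLast hL).symm⟩
  obtain ⟨z0, hz0⟩ : ∃ z0, z0 ≠ f.1 := by
    by_cases h : x = f.1
    · exact ⟨y, fun h' => hxy (h.trans h'.symm)⟩
    · exact ⟨x, h⟩
  have h1 : IsReduced ((z0, l.2) :: v.toWord) := by
    rw [hf] at hred ⊢
    exact List.IsChain.cons_cons (fun h => absurd h hz0) hred
  have h2 : IsReduced (v.toWord ++ [(z0, l.2)]) := by
    rw [hl] at hred ⊢
    rw [List.append_assoc]
    refine List.isChain_append.2 ⟨(List.isChain_append.1 hred).1, ?_, ?_⟩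
    · exact List.IsChain.cons_cons (fun _ => rfl) (List.isChain_singleton _)
    · intro a ha b hb
      have h3 := (List.isChain_append.1 hred).2.2 a ha
      simp only [List.head?_cons, Option.mem_def, Option.some.injEq] at h3 hb
      simp only [List.cons_append, List.nil_append, List.head?_cons, Option.some.injEq] at hb
      exact h3 b hb
  have h3 : mk ((z0, l.2) :: v.toWord) = mk (v.toWord ++ [(z0, l.2)]) := by
    have e1 : mk ((z0, l.2) :: v.toWord) = mk [(z0, l.2)] * v := by
      conv_rhs => rw [← hmk]
      rw [mul_mk]; rfl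
    have e2 : mk (v.toWord ++ [(z0, l.2)]) = v * mk [(z0, l.2)] := by
      conv_rhs => rw [← hmk]
      rw [mul_mk]
    rw [e1, e2, hv]
  have h4 := congrArg toWord h3
  rw [toWord_mk, toWord_mk, h1.reduce_eq, h2.reduce_eq, hf, List.cons_append, List.cons.injEq] at h4
  exact hz0 (congrArg Prod.fst h4.1)

/-- Centralizers of nontrivial elements of free groups are cyclic. -/
theorem centralizer_cyclic {X : Type} (v : FreeGroup X) (hv : v ≠ 1) :
    ∃ u : FreeGroup X, ∀ z : FreeGroup X, z * v = v * z → z ∈ Subgroup.zpowers u := by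
  let C : Subgroup (FreeGroup X) := Subgroup.centralizer {v}
  let E : FreeGroup (IsFreeGroup.Generators C) ≃* C := IsFreeGroup.mulEquiv C
  have hvC : v ∈ C := by
    rw [Subgroup.mem_centralizer_singleton_iff]
  have hsub : ∀ x y : IsFreeGroup.Generators C, x = y := by
    intro x y
    by_contra hxy
    have h1 := central_eq_one hxy (E.symm ⟨v, hvC⟩) (by
      intro w
      apply E.injective
      rw [map_mul, map_mul, E.apply_symm_apply]
      apply Subtype.ext
      have h2 : (E w : FreeGroup X) ∈ C := (E w).2
      rw [Subgroup.mem_centralizer_singleton_iff] at h2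
      exact h2.symm)
    apply hv
    have h3 := congrArg E h1
    rw [E.apply_symm_apply, map_one] at h3
    exact congrArg Subtype.val h3
  by_cases hne : Nonempty (IsFreeGroup.Generators C)
  · obtain ⟨x⟩ := hne
    refine ⟨E (FreeGroup.of x), fun z hz => ?_⟩
    have hzC : z ∈ C := by
      rw [Subgroup.mem_centralizer_singleton_iff]; exact hz
    have h1 : ∀ w : FreeGroup (IsFreeGroup.Generators C), w ∈ Subgroup.zpowers (FreeGroup.of x) := by
      intro w
      have h2 : (⊤ : Subgroup (FreeGroup (IsFreeGroup.Generators C))) ≤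
          Subgroup.zpowers (FreeGroup.of x) := by
        rw [← FreeGroup.closure_range_of, Subgroup.closure_le]
        rintro _ ⟨y, rfl⟩
        rw [hsub y x]
        exact Subgroup.mem_zpowers _
      exact h2 (Subgroup.mem_top w)
    obtain ⟨n, hn⟩ := Subgroup.mem_zpowers_iff.1 (h1 (E.symm ⟨z, hzC⟩))
    refine Subgroup.mem_zpowers_iff.2 ⟨n, ?_⟩
    have h3 := congrArg E hn
    rw [E.apply_symm_apply, map_zpow] at h3
    have h4 := congrArg Subtype.val h3
    simpa using h4
  · refine ⟨1, fun z hz => ?_⟩
    have hzC : z ∈ C := by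
      rw [Subgroup.mem_centralizer_singleton_iff]; exact hz
    have : IsEmpty (IsFreeGroup.Generators C) := not_nonempty_iff.1 hne
    have h3 : E.symm ⟨z, hzC⟩ = 1 := Subsingleton.elim _ _
    have h4 := congrArg E h3
    rw [E.apply_symm_apply, map_one] at h4
    have h5 : z = 1 := congrArg Subtype.val h4
    rw [h5]
    exact Subgroup.one_mem _

/-- The free group of rank three. -/
abbrev F3 : Type := FreeGroup (Fin 3)

theorem exists_functional : ∀ u v : Fin 3 → ZMod 2, ∃ c : Fin 3 → ZMod 2, (∃ i, c i ≠ 0) ∧
    c 0 * u 0 + c 1 * u 1 + c 2 * u 2 = 0 ∧ c 0 * v 0 + c 1 * v 1 + c 2 * v 2 = 0 := by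
  decide +kernel

/-- The free group of rank three is not generated by two elements. -/
theorem closure_pair_ne_top (g z : F3) : Subgroup.closure {g, z} ≠ ⊤ := by
  intro h
  let χ : Fin 3 → (F3 →* Multiplicative (ZMod 2)) := fun i =>
    FreeGroup.lift fun j => Multiplicative.ofAdd (if j = i then 1 else 0)
  obtain ⟨c, ⟨i, hi⟩, hg, hz⟩ := exists_functional (fun i => (χ i g).toAdd) (fun i => (χ i z).toAdd)
  let f : F3 →* Multiplicative (ZMod 2) :=
    FreeGroup.lift fun j => Multiplicative.ofAdd (c j)
  have hf : ∀ x, (f x).toAdd = c 0 * (χ 0 x).toAdd + c 1 * (χ 1 x).toAdd + c 2 * (χ 2 x).toAdd := by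
    intro x
    induction x using FreeGroup.induction_on with
    | C1 => simp
    | of j => fin_cases j <;> simp [f, χ]
    | inv_of j h =>
      simp only [map_inv, toAdd_inv] at h ⊢
      rw [h]; ring
    | mul x y hx hy =>
      simp only [map_mul, toAdd_mul] at *
      rw [hx, hy]; ring
  have hle : Subgroup.closure {g, z} ≤ f.ker := by
    rw [Subgroup.closure_le]
    intro x hx
    simp only [Set.mem_insert_iff, Set.mem_singleton_iff] at hx
    rw [SetLike.mem_coe, MonoidHom.mem_ker]
    apply Multiplicative.toAdd.injective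
    rcases hx with rfl | rfl
    · rw [hf]; exact hg
    · rw [hf]; exact hz
  rw [h] at hle
  have h1 : f (FreeGroup.of i) = 1 := hle (Subgroup.mem_top _)
  apply hi
  have h2 : f (FreeGroup.of i) = Multiplicative.ofAdd (c i) := FreeGroup.lift_apply_of
  rw [h2] at h1
  exact h1

/-- If a set of elements which commute with `v` and one more element generate the free group of
rank three, then `v = 1`. -/
theorem eq_one_of_gen {v : F3} {S : Set F3} (hS : ∀ x ∈ S, x * v = v * x) (z : F3)
    (h : Subgroup.closure (insert z S) = ⊤) : v = 1 := by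
  by_contra hv
  obtain ⟨u, hu⟩ := centralizer_cyclic v hv
  apply closure_pair_ne_top u z
  rw [eq_top_iff, ← h, Subgroup.closure_le]
  intro x hx
  rcases Set.mem_insert_iff.1 hx with rfl | hx
  · exact Subgroup.subset_closure (by simp)
  · have h1 := hu x (hS x hx)
    have h2 : Subgroup.zpowers u ≤ Subgroup.closure {u, z} := by
      rw [Subgroup.zpowers_le]
      exact Subgroup.subset_closure (by simp)
    exact h2 h1

end Pool.Agent.K6.H47.HW
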