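import Pool.Agent.K6.H47.HW.Free
import Pool.Agent.Y524H.Conv

set_option autoImplicit false

/-! The equivalence relation and an invariant. -/

namespace Pool.Agent.K6.H47.HW

open Pool.Agent.Y524H

/-- One step: a Hurwitz move or a global conjugation by an element of `Γ`. -/
inductive Step {M : Type} [Group M] (Γ : Subgroup M) : List M → List M → Prop
  | move (u v : List M) (h : HurwitzMove u v) : Step Γ u v
  | conj (γ : M) (hγ : γ ∈ Γ) (u : List M) : Step Γ u (u.map fun t => γ * t * γ⁻¹)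

/-- Equivalence up to Hurwitz moves and global conjugation by elements of `Γ`. -/
def EquivConj {M : Type} [Group M] (Γ : Subgroup M) (u v : List M) : Prop :=
  Relation.EqvGen (Step Γ) u v

theorem EquivConj.of_hurwitz {M : Type} [Group M] (Γ : Subgroup M) {u v : List M}
    (h : HurwitzEquiv u v) : EquivConj Γ u v := by
  induction h with
  | rel _ _ h => exact Relation.EqvGen.rel _ _ (Step.move _ _ h)
  | refl _ => exact Relation.EqvGen.refl _
  | symm _ _ _ h => exact Relation.EqvGen.symm _ _ h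
  | trans _ _ _ _ _ h1 h2 => exact Relation.EqvGen.trans _ _ _ h1 h2

theorem EquivConj.mono {M : Type} [Group M] {Γ Δ : Subgroup M} (hΓ : Γ ≤ Δ) {u v : List M}
    (h : EquivConj Γ u v) : EquivConj Δ u v := by
  induction h with
  | rel _ _ h =>
    refine Relation.EqvGen.rel _ _ ?_
    cases h with
    | move _ _ h => exact Step.move _ _ h
    | conj γ hγ _ => exact Step.conj γ (hΓ hγ) _
  | refl _ => exact Relation.EqvGen.refl _
  | symm _ _ _ h => exact Relation.EqvGen.symm _ _ h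
  | trans _ _ _ _ _ h1 h2 => exact Relation.EqvGen.trans _ _ _ h1 h2

section

variable {G : Type} [Group G] (ψ : Pi1 →* G)

/-- The mapping class `t` preserves `ψ` up to conjugation. -/
def Cj (t : OutPi) : Prop := ∀ α : MulAut Pi1, qq α = t → ∃ g : G, ∀ x, ψ (α x) = g * ψ x * g⁻¹

/-- Automorphisms which are conjugate to the twist about `a_0`. -/
def Strict (α : MulAut Pi1) : Prop := ∃ γ : MulAut Pi1, α = γ * twist (.inl 0) * γ⁻¹

/-- The mapping class `t` preserves `ψ` up to conjugation, and its strict lifts preserve `ψ`. -/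
def Ok (t : OutPi) : Prop := Cj ψ t ∧ ∀ α : MulAut Pi1, qq α = t → Strict α → ∀ x, ψ (α x) = ψ x

theorem qq_surj (t : OutPi) : ∃ σ, qq σ = t := QuotientGroup.mk'_surjective _ t

variable {ψ}

theorem Cj.symm_apply {σ : MulAut Pi1} {g : G} (h : ∀ x, ψ (σ x) = g * ψ x * g⁻¹) (x : Pi1) :
    ψ (σ⁻¹ x) = g⁻¹ * ψ x * g := by
  have h1 := h (σ⁻¹ x)
  rw [MulAut.apply_inv_self] at h1
  rw [h1]
  group

theorem Cj.inv {s : OutPi} (h : Cj ψ s) : Cj ψ s⁻¹ := by
  intro α hα
  obtain ⟨g, hg⟩ := h α⁻¹ (by rw [map_inv, hα, inv_inv])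
  refine ⟨g⁻¹, fun x => ?_⟩
  have := Cj.symm_apply hg x
  rw [inv_inv] at this
  rw [this, inv_inv]

theorem Ok.conj {s t : OutPi} (hs : Cj ψ s) (ht : Ok ψ t) : Ok ψ (s * t * s⁻¹) := by
  obtain ⟨σ, rfl⟩ := qq_surj s
  obtain ⟨g, hg⟩ := hs σ rfl
  have key : ∀ α : MulAut Pi1, qq α = qq σ * t * (qq σ)⁻¹ → qq (σ⁻¹ * α * σ) = t := by
    intro α hα
    rw [map_mul, map_mul, map_inv, hα]
    group
  have hx : ∀ (α : MulAut Pi1) x, ψ (α x) = g * ψ ((σ⁻¹ * α * σ) (σ⁻¹ x)) * g⁻¹ := by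
    intro α x
    rw [← hg]
    congr 1
    rw [← MulAut.mul_apply, ← MulAut.mul_apply]
    have : σ * (σ⁻¹ * α * σ) * σ⁻¹ = α := by group
    rw [this]
  constructor
  · intro α hα
    obtain ⟨k, hk⟩ := ht.1 _ (key α hα)
    refine ⟨g * k * g⁻¹, fun x => ?_⟩
    rw [hx, hk, Cj.symm_apply hg]
    group
  · rintro α hα ⟨γ, rfl⟩ x
    have h1 := ht.2 _ (key _ hα) ⟨σ⁻¹ * γ, by group⟩ (σ⁻¹ x)
    rw [hx, h1, Cj.symm_apply hg]
    group

theorem Ok.of_conj {s t : OutPi} (hs : Cj ψ s) (ht : Ok ψ (s * t * s⁻¹)) : Ok ψ t := by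
  have := Ok.conj hs.inv ht
  have e : s⁻¹ * (s * t * s⁻¹) * s⁻¹⁻¹ = t := by group
  rwa [e] at this

variable (ψ)

theorem Ok.comp {t : OutPi} (ht : Ok ψ t) (δ : MulAut Pi1) :
    Ok (ψ.comp (δ⁻¹ : MulAut Pi1).toMonoidHom) (qq δ * t * (qq δ)⁻¹) := by
  have key : ∀ α : MulAut Pi1, qq α = qq δ * t * (qq δ)⁻¹ → qq (δ⁻¹ * α * δ) = t := by
    intro α hα
    rw [map_mul, map_mul, map_inv, hα]
    group
  have hx : ∀ (α : MulAut Pi1) x, (ψ.comp (δ⁻¹ : MulAut Pi1).toMonoidHom) (α x) =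
      ψ ((δ⁻¹ * α * δ) (δ⁻¹ x)) := by
    intro α x
    change ψ (δ⁻¹ (α x)) = _
    congr 1
    rw [← MulAut.mul_apply, ← MulAut.mul_apply]
    have : δ⁻¹ * α * δ * δ⁻¹ = δ⁻¹ * α := by group
    rw [this]
  constructor
  · intro α hα
    obtain ⟨k, hk⟩ := ht.1 _ (key α hα)
    exact ⟨k, fun x => by rw [hx, hk]; rfl⟩
  · rintro α hα ⟨γ, rfl⟩ x
    rw [hx, ht.2 _ (key _ hα) ⟨δ⁻¹ * γ, by group⟩]
    rfl

end

/-- The invariant: there is a homomorphism to a group which is not trivial, which is preserved up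
to conjugation by the twists of the factorization and which is preserved by all their strict
lifts. -/
def Good (u : List OutPi) : Prop :=
  ∃ (G : Type) (_ : Group G) (ψ : Pi1 →* G), (∃ x, ψ x ≠ 1) ∧ ∀ t ∈ u, Ok ψ t

theorem good_move {u v : List OutPi} (h : HurwitzMove u v) : Good u ↔ Good v := by
  obtain ⟨l, r, s, t⟩ := h
  constructor
  · rintro ⟨G, _, ψ, hψ, hu⟩
    refine ⟨G, inferInstance, ψ, hψ, ?_⟩
    have hs := hu s (by simp)
    have ht := hu t (by simp)
    intro x hx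
    simp only [List.mem_append, List.mem_cons] at hx
    rcases hx with hx | rfl | rfl | hx
    · exact hu x (by simp [hx])
    · exact Ok.conj hs.1 ht
    · exact hs
    · exact hu x (by simp [hx])
  · rintro ⟨G, _, ψ, hψ, hu⟩
    refine ⟨G, inferInstance, ψ, hψ, ?_⟩
    have hs := hu s (by simp)
    have ht := hu (s * t * s⁻¹) (by simp)
    intro x hx
    simp only [List.mem_append, List.mem_cons] at hx
    rcases hx with hx | rfl | rfl | hx
    · exact hu x (by simp [hx])
    · exact hs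
    · exact Ok.of_conj hs.1 ht
    · exact hu x (by simp [hx])

theorem good_map {u : List OutPi} (γ : OutPi) (h : Good u) :
    Good (u.map fun t => γ * t * γ⁻¹) := by
  obtain ⟨G, _, ψ, ⟨x, hx⟩, hu⟩ := h
  obtain ⟨δ, rfl⟩ := qq_surj γ
  refine ⟨G, inferInstance, ψ.comp (δ⁻¹ : MulAut Pi1).toMonoidHom, ⟨δ x, ?_⟩, ?_⟩
  · change ψ (δ⁻¹ (δ x)) ≠ 1
    rw [MulAut.inv_apply_self]
    exact hx
  · intro t ht
    rw [List.mem_map] at ht
    obtain ⟨t, ht, rfl⟩ := ht
    exact Ok.comp ψ (hu t ht) δ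

/-- The invariant is preserved by Hurwitz moves and global conjugations. -/
theorem good_iff {Γ : Subgroup OutPi} {u v : List OutPi} (h : EquivConj Γ u v) :
    Good u ↔ Good v := by
  induction h with
  | rel _ _ h =>
    cases h with
    | move _ _ h => exact good_move h
    | conj γ _ u =>
      refine ⟨good_map γ, fun h => ?_⟩
      have := good_map γ⁻¹ h
      rw [List.map_map] at this
      have e : ((fun t => γ⁻¹ * t * γ⁻¹⁻¹) ∘ fun t => γ * t * γ⁻¹) = id := by
        funext t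
        simp only [Function.comp_apply, id_eq]
        group
      rw [e, List.map_id] at this
      exact this
  | refl _ => exact Iff.rfl
  | symm _ _ _ h => exact h.symm
  | trans _ _ _ _ _ h1 h2 => exact h1.trans h2

/-! Homomorphisms to the free group of rank three. -/

theorem twist_zero_fix (j : ℕ) (hj : j % 12 ≠ 1) : twist (.inl 0) (vv j) = vv j := by
  rw [twist_isTab (.inl 0) j]
  have h : ∀ i < 12, i ≠ 1 → (tabL (.inl 0, true)).getD i [] = [2 * i] := by decide +kernel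
  rw [h _ (Nat.mod_lt _ (by norm_num)) hj, den, den, mul_one, dl]
  have h3 : 2 * (j % 12) % 2 = 0 := by omega
  have h4 : 2 * (j % 12) / 2 = j % 12 := by omega
  rw [if_pos h3, h4, vv_mod]

/-- The images of the generators generate. -/
theorem closure_image {H : Type} [Group H] (η : Pi1 →* H) (hη : Function.Surjective η) :
    Subgroup.closure (Set.range fun j => η (vv j)) = ⊤ := by
  have h1 : (Set.range fun j => η (vv j)) = η '' Set.range vv := by
    rw [← Set.range_comp]; rfl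
  rw [h1, ← MonoidHom.map_closure, vv_gen, ← MonoidHom.range_eq_map]
  exact MonoidHom.range_eq_top.2 hη

theorem free_lift (η : Pi1 →* F3) (hη : Function.Surjective η) (v : F3)
    (h : ∀ x, η (twist (.inl 0) x) = v * η x * v⁻¹) : v = 1 := by
  refine eq_one_of_gen (S := {y | ∃ j, j % 12 ≠ 1 ∧ y = η (vv j)}) ?_ (η (vv 1)) ?_
  · rintro _ ⟨j, hj, rfl⟩
    have h1 := h (vv j)
    rw [twist_zero_fix j hj] at h1
    conv_lhs => rw [h1]
    group
  · rw [eq_top_iff, ← closure_image η hη]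
    apply Subgroup.closure_mono
    rintro _ ⟨j, rfl⟩
    by_cases hj : j % 12 = 1
    · left
      change η (vv j) = η (vv 1)
      rw [← vv_mod j, hj]
    · right
      exact ⟨j, hj, rfl⟩

/-- A criterion. -/
theorem Ok.of_free {G : Type} [Group G] {ψ : Pi1 →* G} (β : MulAut Pi1) (ρ : Pi1 →* F3)
    (hρ : Function.Surjective ρ) (hβ : ∀ x, ρ (β x) = ρ x) (κ : F3 →* G) (hψ : ψ = κ.comp ρ) :
    Ok ψ (qq β) := by
  have key : ∀ α : MulAut Pi1, qq α = qq β → ∃ y : Pi1, ∀ x, ρ (α x) = ρ y * ρ x * (ρ y)⁻¹ := by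
    intro α hα
    have h1 : qq (α * β⁻¹) = 1 := by rw [map_mul, map_inv, hα, mul_inv_cancel]
    obtain ⟨y, hy⟩ := (QuotientGroup.eq_one_iff _).1 h1
    refine ⟨y, fun x => ?_⟩
    have h2 : α = MulAut.conj y * β := by
      rw [hy, inv_mul_cancel_right]
    rw [h2, MulAut.mul_apply, MulAut.conj_apply, map_mul, map_mul, map_inv, hβ]
  constructor
  · intro α hα
    obtain ⟨y, hy⟩ := key α hα
    refine ⟨ψ y, fun x => ?_⟩
    rw [hψ, MonoidHom.comp_apply, hy, map_mul, map_mul, map_inv]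
    rfl
  · rintro α hα ⟨γ, rfl⟩ x
    obtain ⟨y, hy⟩ := key _ hα
    have h1 : ρ y = 1 := by
      refine free_lift (ρ.comp γ.toMonoidHom) (hρ.comp γ.surjective) (ρ y) ?_
      intro x
      have h2 := hy (γ x)
      have h3 : (γ * twist (.inl 0) * γ⁻¹) (γ x) = γ (twist (.inl 0) x) := by
        rw [MulAut.mul_apply, MulAut.mul_apply, MulAut.inv_apply_self]
      rw [h3] at h2
      exact h2
    rw [hψ, MonoidHom.comp_apply, MonoidHom.comp_apply, hy, h1]
    simp

end Pool.Agent.K6.H47.HW
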