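import Pool.Agent.K6.H47.HW.Shift

set_option autoImplicit false

/-! Two-generator groups which are trivial if and only if a given element is trivial (Adian, Rabin;
the relations are those of Miller). -/

namespace Pool.Agent.K6.H47.HW

section words

variable {G : Type} [Group G]

/-- The element `c` in terms of the generators `p 0 = b` and `p 1 = c a⁻¹`. -/
def cE (p : Fin 2 → G) : G := p 0 * p 1 * p 0 * (p 1)⁻¹ * (p 0)⁻¹

/-- The element `a`. -/
def aE (p : Fin 2 → G) : G := (p 1)⁻¹ * cE p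

/-- The images of the generators of the given group. -/
def xE (p : Fin 2 → G) (i : Fin 2) : G :=
  aE p ^ (4 + i.val) * (cE p ^ (4 + i.val))⁻¹ * p 0 * cE p ^ (4 + i.val) *
    (aE p ^ (4 + i.val))⁻¹ * (p 0)⁻¹

/-- The second relator. -/
def rel2E (p : Fin 2 → G) : G :=
  (aE p ^ 2)⁻¹ * ((p 0)⁻¹ * aE p * p 0) * aE p ^ 2 *
    ((cE p ^ 2)⁻¹ * ((p 0)⁻¹ * cE p * p 0) * cE p ^ 2)⁻¹

/-- The third relator. -/
def rel3E (p : Fin 2 → G) (z : G) : G :=
  (aE p ^ 3)⁻¹ * z * aE p ^ 3 * ((cE p ^ 3)⁻¹ * p 0 * cE p ^ 3)⁻¹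

variable {H : Type} [Group H] (f : G →* H)

theorem map_cE (p : Fin 2 → G) : f (cE p) = cE (fun i => f (p i)) := by
  simp only [cE, map_mul, map_inv]

theorem map_aE (p : Fin 2 → G) : f (aE p) = aE (fun i => f (p i)) := by
  simp only [aE, map_mul, map_inv, map_cE]

theorem map_xE (p : Fin 2 → G) (i : Fin 2) : f (xE p i) = xE (fun i => f (p i)) i := by
  simp only [xE, map_mul, map_inv, map_pow, map_cE, map_aE]

theorem map_rel2E (p : Fin 2 → G) : f (rel2E p) = rel2E (fun i => f (p i)) := by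
  simp only [rel2E, map_mul, map_inv, map_pow, map_cE, map_aE]

theorem map_rel3E (p : Fin 2 → G) (z : G) :
    f (rel3E p z) = rel3E (fun i => f (p i)) (f z) := by
  simp only [rel3E, map_mul, map_inv, map_pow, map_cE, map_aE]

/-- The group is trivial if the third argument is. -/
theorem kill (p : Fin 2 → G) (h2 : rel2E p = 1) (h3 : rel3E p 1 = 1) : p 0 = 1 ∧ p 1 = 1 := by
  have h0 : p 0 = 1 := by
    unfold rel3E at h3
    rw [mul_one, inv_mul_cancel, one_mul, inv_eq_one] at h3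
    have h4 : p 0 = cE p ^ 3 * ((cE p ^ 3)⁻¹ * p 0 * cE p ^ 3) * (cE p ^ 3)⁻¹ := by group
    rw [h4, h3, mul_one, mul_inv_cancel]
  have hc : cE p = 1 := by
    unfold cE
    rw [h0]
    simp
  have ha : aE p = (p 1)⁻¹ := by
    unfold aE
    rw [hc, mul_one]
  refine ⟨h0, ?_⟩
  unfold rel2E at h2
  rw [hc, h0, ha] at h2
  simp only [one_pow, inv_one, one_mul, mul_one] at h2
  have h5 : ((p 1)⁻¹ ^ 2)⁻¹ * (p 1)⁻¹ * (p 1)⁻¹ ^ 2 = (p 1)⁻¹ := by group
  rw [h5, inv_eq_one] at h2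
  exact h2

end words

theorem conj_perm {Ω : Type} (a b : Equiv.Perm Ω) (B : Set Ω)
    (ha : ∀ j : ℤ, j ≠ 0 → ∀ q ∈ B, (a ^ j) q ∉ B) (hb : ∀ q, q ∉ B → b q ∈ B)
    (hb' : ∀ q, q ∉ B → b⁻¹ q ∈ B) (k : ℤ) (hk : k ≠ 0) (q : Ω) (hq : q ∉ B) :
    ((b⁻¹ * a * b) ^ k) q ∈ B := by
  have h1 : (b⁻¹ * a * b) ^ k = b⁻¹ * a ^ k * b := by
    have := conj_zpow (a := b⁻¹) (b := a) (i := k)
    rw [inv_inv] at this
    exact this
  rw [h1, Equiv.Perm.mul_apply, Equiv.Perm.mul_apply]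
  exact hb' _ (ha k hk _ (hb q hq))

/-- If `w ≠ 1`, the group is not trivial. -/
theorem exists_embedding {U : Type} [Group U] {w : U} (hw : w ≠ 1) (x : Fin 2 → U) :
    ∃ (P : Type) (_ : Group P) (κ : U →* P) (p : Fin 2 → P), p 0 ≠ 1 ∧
      (∀ i, xE p i = κ (x i)) ∧ rel2E p = 1 ∧
      rel3E p (κ w * p 0 * (κ w)⁻¹ * (p 0)⁻¹) = 1 := by
  obtain ⟨V, _, ι, b, hb, hwb, hxb⟩ := exists_orders hw x
  have hb1 : b ≠ 1 := by
    have := hb 1 one_ne_zero
    rwa [zpow_one] at this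
  have : Nontrivial V := ⟨⟨b, 1, hb1⟩⟩
  obtain ⟨Ω2, act2, a, B2, hB2, ha2, hV2⟩ := exists_shift V
  obtain ⟨Ω', act', c, B', hB', hc', hZ'⟩ := exists_shift (Multiplicative ℤ)
  have hcard : 3 ≤ Cardinal.mk (Fin 6) := by
    rw [Cardinal.mk_fin]
    norm_cast
  let n : Fin 6 → ℤ := fun i => i.val
  have hn : Function.Injective n := fun i j h =>
    Fin.ext (Nat.cast_injective (R := ℤ) h)
  let b' : Equiv.Perm Ω' := act' (Multiplicative.ofAdd 1)
  let l : Fin 6 → Equiv.Perm Ω2 := ![act2 b, act2 b, (act2 b)⁻¹ * a * act2 b,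
    act2 (ι w * b * (ι w)⁻¹ * b⁻¹), act2 (ι (x 0) * b), act2 (ι (x 1) * b)]
  let l' : Fin 6 → Equiv.Perm Ω' := ![b', b'⁻¹ * c * b', b'⁻¹ * c * b', b', b', b']
  have hact : ∀ v : V, (∀ k : ℤ, k ≠ 0 → v ^ k ≠ 1) → ∀ k : ℤ, k ≠ 0 → ∀ q, q ∉ B2 →
      (act2 v ^ k) q ∈ B2 := by
    intro v hv k hk q hq
    rw [← map_zpow]
    exact hV2 _ (hv k hk) q hq
  have hl : ∀ i, ∀ k : ℤ, k ≠ 0 → ∀ q, q ∉ B2 → (l i ^ k) q ∈ B2 := by
    intro i
    fin_cases i
    · exact hact b hb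
    · exact hact b hb
    · intro k hk q hq
      refine conj_perm a (act2 b) B2 ha2 (fun q hq => hV2 b hb1 q hq) (fun q hq => ?_) k hk q hq
      rw [← map_inv]
      exact hV2 _ (inv_ne_one.2 hb1) q hq
    · exact hact _ hwb
    · exact hact _ (hxb 0)
    · exact hact _ (hxb 1)
  have hb'k : ∀ k : ℤ, k ≠ 0 → ∀ q, q ∉ B' → (b' ^ k) q ∈ B' := by
    intro k hk q hq
    have h1 : b' ^ k = act' (Multiplicative.ofAdd k) := by
      rw [← map_zpow, ← ofAdd_zsmul]; simp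
    rw [h1]
    refine hZ' _ (fun h => hk ?_) q hq
    exact congrArg Multiplicative.toAdd h
  have hl'c : ∀ k : ℤ, k ≠ 0 → ∀ q, q ∉ B' → ((b'⁻¹ * c * b') ^ k) q ∈ B' := by
    intro k hk q hq
    refine conj_perm c b' B' hc' (fun q hq => ?_) (fun q hq => ?_) k hk q hq
    · have := hb'k 1 one_ne_zero q hq
      rwa [zpow_one] at this
    · have := hb'k (-1) (by norm_num) q hq
      rwa [zpow_neg_one] at this
  have hl' : ∀ i, ∀ k : ℤ, k ≠ 0 → ∀ q, q ∉ B' → (l' i ^ k) q ∈ B' := by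
    intro i
    fin_cases i
    · exact hb'k
    · exact hl'c
    · exact hl'c
    · exact hb'k
    · exact hb'k
    · exact hb'k
  have inj2 := sandwich hcard a B2 hB2 ha2 n hn l hl
  have inj' := sandwich hcard c B' hB' hc' n hn l' hl'
  let T : Bool → Type := fun i => cond i Ω2 Ω'
  let φ : ∀ i : Bool, FreeGroup (Fin 6) →* Equiv.Perm (T i) := fun i =>
    match i with
    | true => FreeGroup.lift (fun i => (a ^ n i)⁻¹ * l i * a ^ n i)
    | false => FreeGroup.lift (fun i => (c ^ n i)⁻¹ * l' i * c ^ n i)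
  have hφ : ∀ i, Function.Injective (φ i) := by
    intro i
    cases i
    · exact inj'
    · exact inj2
  let ot : Equiv.Perm Ω2 →* Monoid.PushoutI φ := Monoid.PushoutI.of (φ := φ) true
  let of : Equiv.Perm Ω' →* Monoid.PushoutI φ := Monoid.PushoutI.of (φ := φ) false
  have hinj : Function.Injective ot := Monoid.PushoutI.of_injective hφ true
  have R : ∀ j : Fin 6, (ot a ^ n j)⁻¹ * ot (l j) * ot a ^ n j =
      (of c ^ n j)⁻¹ * of (l' j) * of c ^ n j := by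
    intro j
    have h1 : ot ((a ^ n j)⁻¹ * l j * a ^ n j) = Monoid.PushoutI.base φ (FreeGroup.of j) := by
      rw [← Monoid.PushoutI.of_apply_eq_base φ true (FreeGroup.of j)]
      congr 1
    have h2 : of ((c ^ n j)⁻¹ * l' j * c ^ n j) = Monoid.PushoutI.base φ (FreeGroup.of j) := by
      rw [← Monoid.PushoutI.of_apply_eq_base φ false (FreeGroup.of j)]
      congr 1
    have h3 := h1.trans h2.symm
    simpa only [map_mul, map_inv, map_zpow] using h3
  set aP := ot a with haP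
  set cP := of c with hcP
  set bP := ot (act2 b) with hbP
  have R0 : bP = of b' := by
    have := R 0
    simpa [n, l, l'] using this
  have R1 : aP⁻¹ * bP * aP = cP⁻¹ * (bP⁻¹ * cP * bP) * cP := by
    have := R 1
    have e1 : n 1 = 1 := rfl
    have e2 : l 1 = act2 b := rfl
    have e3 : l' 1 = b'⁻¹ * c * b' := rfl
    rw [e1, e2, e3, zpow_one, zpow_one, map_mul, map_mul, map_inv, ← R0] at this
    exact this
  have R2 : (aP ^ 2)⁻¹ * (bP⁻¹ * aP * bP) * aP ^ 2 = (cP ^ 2)⁻¹ * (bP⁻¹ * cP * bP) * cP ^ 2 := by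
    have := R 2
    have e1 : n 2 = 2 := rfl
    have e2 : l 2 = (act2 b)⁻¹ * a * act2 b := rfl
    have e3 : l' 2 = b'⁻¹ * c * b' := rfl
    rw [e1, e2, e3, map_mul, map_mul, map_inv, map_mul, map_mul, map_inv, ← R0] at this
    exact_mod_cast this
  have R3 : (aP ^ 3)⁻¹ * ot (act2 (ι w * b * (ι w)⁻¹ * b⁻¹)) * aP ^ 3 =
      (cP ^ 3)⁻¹ * bP * cP ^ 3 := by
    have := R 3
    have e1 : n 3 = 3 := rfl
    have e2 : l 3 = act2 (ι w * b * (ι w)⁻¹ * b⁻¹) := rfl
    have e3 : l' 3 = b' := rfl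
    rw [e1, e2, e3, ← R0] at this
    exact_mod_cast this
  have R4 : ∀ i : Fin 2, (aP ^ (4 + i.val))⁻¹ * ot (act2 (ι (x i) * b)) * aP ^ (4 + i.val) =
      (cP ^ (4 + i.val))⁻¹ * bP * cP ^ (4 + i.val) := by
    intro i
    fin_cases i
    · have := R 4
      have e1 : n 4 = 4 := rfl
      have e2 : l 4 = act2 (ι (x 0) * b) := rfl
      have e3 : l' 4 = b' := rfl
      rw [e1, e2, e3, ← R0] at this
      exact_mod_cast this
    · have := R 5
      have e1 : n 5 = 5 := rfl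
      have e2 : l 5 = act2 (ι (x 1) * b) := rfl
      have e3 : l' 5 = b' := rfl
      rw [e1, e2, e3, ← R0] at this
      exact_mod_cast this
  let p : Fin 2 → Monoid.PushoutI φ := ![bP, cP * aP⁻¹]
  have p0 : p 0 = bP := rfl
  have p1 : p 1 = cP * aP⁻¹ := rfl
  have hc : cE p = cP := by
    unfold cE
    rw [p0, p1]
    calc bP * (cP * aP⁻¹) * bP * (cP * aP⁻¹)⁻¹ * bP⁻¹
        = bP * cP * (aP⁻¹ * bP * aP) * cP⁻¹ * bP⁻¹ := by group
      _ = cP := by rw [R1]; group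
  have ha : aE p = aP := by
    unfold aE
    rw [hc, p1]
    group
  refine ⟨Monoid.PushoutI φ, inferInstance, ot.comp (act2.comp ι), p, ?_, ?_, ?_, ?_⟩
  · rw [p0]
    intro h
    have h1 : act2 b = 1 := hinj (h.trans (map_one ot).symm)
    have h2 : ∃ q, q ∉ B2 := by
      obtain ⟨q, hq⟩ := hB2
      exact ⟨_, ha2 1 one_ne_zero q hq⟩
    obtain ⟨q, hq⟩ := h2
    have h3 := hV2 b hb1 q hq
    rw [h1] at h3
    exact hq h3
  · intro i
    unfold xE
    rw [ha, hc, p0]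
    have h1 : (ot.comp (act2.comp ι)) (x i) = ot (act2 (ι (x i) * b)) * bP⁻¹ := by
      rw [map_mul, map_mul, hbP, mul_inv_cancel_right]
      rfl
    rw [h1]
    have h2 : ot (act2 (ι (x i) * b)) = aP ^ (4 + i.val) *
        ((aP ^ (4 + i.val))⁻¹ * ot (act2 (ι (x i) * b)) * aP ^ (4 + i.val)) *
          (aP ^ (4 + i.val))⁻¹ := by group
    rw [h2, R4 i]
    simp only [mul_assoc]
  · unfold rel2E
    rw [ha, hc, p0, R2, mul_inv_cancel]
  · unfold rel3E
    rw [ha, hc, p0]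
    have h1 : (ot.comp (act2.comp ι)) w * bP * ((ot.comp (act2.comp ι)) w)⁻¹ * bP⁻¹ =
        ot (act2 (ι w * b * (ι w)⁻¹ * b⁻¹)) := by
      simp only [map_mul, map_inv, hbP]
      rfl
    rw [h1, R3, mul_inv_cancel]

end Pool.Agent.K6.H47.HW
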