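import Pool.Agent.K6.H47.HW.Mil
import Pool.Agent.Y524H.Conv

set_option autoImplicit false

/-! The relators as words. -/

namespace Pool.Agent.K6.H47.HW

open Pool.Agent.Y524H

/-- Words in two letters. -/
abbrev W2 : Type := List (Fin 2 × Bool)

/-- The generators of the free group. -/
def fg (i : Fin 2) : FreeGroup (Fin 2) := FreeGroup.of i

/-- Substitution of the words for the letters. -/
def sb (w : W2) : W2 :=
  w.flatMap fun x => if x.2 then (xE fg x.1).toWord else iw (xE fg x.1).toWord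

theorem mk_sb (w : W2) : FreeGroup.mk (sb w) = FreeGroup.lift (xE fg) (FreeGroup.mk w) := by
  induction w with
  | nil => simp [sb, ← FreeGroup.one_eq_mk]
  | cons x w ih =>
    have h1 : sb (x :: w) = (if x.2 then (xE fg x.1).toWord else iw (xE fg x.1).toWord) ++ sb w := by
      simp [sb]
    have h2 : FreeGroup.mk (x :: w) = FreeGroup.mk [x] * FreeGroup.mk w := by
      rw [FreeGroup.mul_mk]; rfl
    rw [h1, ← FreeGroup.mul_mk, ih, h2, map_mul]
    congr 1
    obtain ⟨i, e⟩ := x
    cases e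
    · have : FreeGroup.mk [(i, false)] = (FreeGroup.of i)⁻¹ := rfl
      rw [this, map_inv, FreeGroup.lift_apply_of]
      simp [mk_iw, FreeGroup.mk_toWord]
    · have : FreeGroup.mk [(i, true)] = FreeGroup.of i := rfl
      rw [this, FreeGroup.lift_apply_of]
      simp [FreeGroup.mk_toWord]

/-- The word which is added. -/
def rr (w : W2) : W2 := sb w ++ (fg 0).toWord ++ iw (sb w) ++ iw (fg 0).toWord

theorem mk_rr (w : W2) : FreeGroup.mk (rr w) = FreeGroup.lift (xE fg) (FreeGroup.mk w) * fg 0 *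
    (FreeGroup.lift (xE fg) (FreeGroup.mk w))⁻¹ * (fg 0)⁻¹ := by
  simp only [rr, ← FreeGroup.mul_mk, mk_iw, mk_sb, FreeGroup.mk_toWord]

/-- The third relator. -/
def rl3 (w : W2) : W2 := ((aE fg ^ 3)⁻¹).toWord ++ rr w ++
  (aE fg ^ 3 * ((cE fg ^ 3)⁻¹ * fg 0 * cE fg ^ 3)⁻¹).toWord

theorem mk_rl3 (w : W2) : FreeGroup.mk (rl3 w) = rel3E fg (FreeGroup.mk (rr w)) := by
  simp only [rl3, ← FreeGroup.mul_mk, FreeGroup.mk_toWord, rel3E, mul_assoc]

/-- The relators. -/
def RL (rl0 : List W2) (w : W2) : List W2 := rl0.map sb ++ [(rel2E fg).toWord, rl3 w]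

section

variable (rl0 : List W2) (w : W2)

theorem lift_fg {G : Type} [Group G] (p : Fin 2 → G) :
    (fun i => FreeGroup.lift p (fg i)) = p := by
  funext i
  exact FreeGroup.lift_apply_of

/-- The group is trivial if the added word is. -/
theorem kill_RL {G : Type} [Group G] (p : Fin 2 → G)
    (h : ∀ r ∈ RL rl0 w, FreeGroup.lift p (FreeGroup.mk r) = 1)
    (hw : FreeGroup.lift p (FreeGroup.mk (rr w)) = 1) : p 0 = 1 ∧ p 1 = 1 := by
  apply kill
  · have := h (rel2E fg).toWord (by simp [RL])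
    rw [FreeGroup.mk_toWord, map_rel2E, lift_fg] at this
    exact this
  · have := h (rl3 w) (by simp [RL])
    rw [mk_rl3, map_rel3E, lift_fg, hw] at this
    exact this

theorem mem_of_mem (hw : FreeGroup.mk w ∈ Subgroup.normalClosure (Rel rl0)) :
    FreeGroup.mk (rr w) ∈ Subgroup.normalClosure (Rel (RL rl0 w)) := by
  have h1 : Subgroup.normalClosure (Rel rl0) ≤
      (Subgroup.normalClosure (Rel (RL rl0 w))).comap (FreeGroup.lift (xE fg)) := by
    apply Subgroup.normalClosure_le_normal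
    rintro _ ⟨r, hr, rfl⟩
    rw [SetLike.mem_coe, Subgroup.mem_comap, ← mk_sb]
    apply Subgroup.subset_normalClosure
    exact ⟨sb r, by simp only [RL, List.mem_append, List.mem_map]; exact Or.inl ⟨r, hr, rfl⟩, rfl⟩
  have h2 : FreeGroup.lift (xE fg) (FreeGroup.mk w) ∈
      Subgroup.normalClosure (Rel (RL rl0 w)) := h1 hw
  rw [mk_rr]
  have h3 := Subgroup.normalClosure_normal.conj_mem _ (Subgroup.inv_mem _ h2) (fg 0)
  have h4 := Subgroup.mul_mem _ h2 h3
  simpa only [mul_assoc] using h4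

theorem pp_ne_one (hw : FreeGroup.mk w ∉ Subgroup.normalClosure (Rel rl0)) :
    pp (RL rl0 w) 0 ≠ 1 := by
  have hU : PresentedGroup.mk (Rel rl0) (FreeGroup.mk w) ≠ 1 := fun h =>
    hw ((QuotientGroup.eq_one_iff _).1 h)
  obtain ⟨P, _, κ, p, hp0, hx, h2, h3⟩ := exists_embedding hU (pp rl0)
  have hcomp : (FreeGroup.lift p).comp (FreeGroup.lift (xE fg)) =
      κ.comp (PresentedGroup.mk (Rel rl0)) := by
    apply FreeGroup.ext_hom
    intro i
    rw [MonoidHom.comp_apply, FreeGroup.lift_apply_of, map_xE, lift_fg, hx]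
    rfl
  have hsb : ∀ r, FreeGroup.lift p (FreeGroup.lift (xE fg) r) = κ (PresentedGroup.mk (Rel rl0) r) :=
    fun r => DFunLike.congr_fun hcomp r
  let Ψ : PresentedGroup (Rel (RL rl0 w)) →* P := PresentedGroup.toGroup (f := p) (by
    rintro _ ⟨r, hr, rfl⟩
    simp only [RL, List.mem_append, List.mem_map, List.mem_cons, List.not_mem_nil, or_false] at hr
    rcases hr with ⟨r, hr, rfl⟩ | rfl | rfl
    · have h5 : PresentedGroup.mk (Rel rl0) (FreeGroup.mk r) = 1 :=
        PresentedGroup.one_of_mem ⟨r, hr, rfl⟩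
      rw [mk_sb, hsb, h5, map_one]
    · rw [FreeGroup.mk_toWord, map_rel2E, lift_fg, h2]
    · rw [mk_rl3, map_rel3E, lift_fg, mk_rr, map_mul, map_mul, map_mul, map_inv, map_inv, hsb]
      have e : FreeGroup.lift p (fg 0) = p 0 := FreeGroup.lift_apply_of
      rw [e, h3])
  intro h
  apply hp0
  have h4 : Ψ (pp (RL rl0 w) 0) = p 0 := PresentedGroup.toGroup.of _
  rw [← h4, h, map_one]

end

/-! Computability. -/

theorem iw_primrec : Primrec (iw : W2 → W2) := by
  have hf : Primrec (fun l : Fin 2 × Bool => ((l.1, !l.2) : Fin 2 × Bool)) := Primrec.dom_finite _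
  have h2 : Primrec₂ (fun (_ : W2) (l : Fin 2 × Bool) => ((l.1, !l.2) : Fin 2 × Bool)) :=
    hf.comp Primrec.snd
  exact Primrec.list_reverse.comp (Primrec.list_map Primrec.id h2)

theorem sb_primrec : Primrec sb := by
  have h0 : Primrec (fun x : Fin 2 × Bool => if x.2 then (xE fg x.1).toWord else
    iw (xE fg x.1).toWord) := Primrec.dom_finite _
  have h : Primrec₂ (fun (_ : W2) (x : Fin 2 × Bool) =>
      if x.2 then (xE fg x.1).toWord else iw (xE fg x.1).toWord) := h0.comp Primrec.snd
  exact Primrec.list_flatMap Primrec.id h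

theorem rr_primrec : Primrec rr :=
  Primrec.list_append.comp (Primrec.list_append.comp (Primrec.list_append.comp sb_primrec
    (Primrec.const _)) (iw_primrec.comp sb_primrec)) (Primrec.const _)

theorem rl3_primrec : Primrec rl3 :=
  Primrec.list_append.comp (Primrec.list_append.comp (Primrec.const _) rr_primrec)
    (Primrec.const _)

theorem RL_primrec (rl0 : List W2) : Primrec (RL rl0) := by
  have h : Primrec (fun w => [(rel2E fg).toWord, rl3 w]) :=
    Primrec.list_cons.comp (Primrec.const _)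
      (Primrec.list_cons.comp rl3_primrec (Primrec.const []))
  exact Primrec.list_append.comp (Primrec.const _) h

end Pool.Agent.K6.H47.HW
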