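import Pool.Agent.K6.H47.HW.Fac
import Pool.Agent.K6.H47.HW.Wd

set_option autoImplicit false

/-! The second factorization does not have the property. -/

namespace Pool.Agent.K6.H47.HW

open Pool.Agent.Y524H

/-- The product of the eight lifts. -/
theorem Pm_eq : Pm = li (0, f0w) * (li (0, f1w) * (li (0, f2w) * (li (0, f3w) * (li (0, f4w) *
    (li (0, f5w) * (li (0, f6w) * sepTwist 3)))))) := by
  simp only [li_zero]
  rfl

theorem sep_comm_L : ∀ l ∈ Lset, twist l * sepTwist 3 = sepTwist 3 * twist l := by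
  have h : ∀ l ∈ Lset, comp (tabL (l, true)) (tabS 3) = comp (tabS 3) (tabL (l, true)) := by
    decide +kernel
  intro l hl
  have h1 := (twist_isTab l).comp (sep_isTab 3)
  have h2 := (sep_isTab 3).comp (twist_isTab l)
  exact h1.ext vv_gen ((h l hl) ▸ h2)

theorem sep_comm {s : Word} (hs : isL s) : Commute (ev s) (sepTwist 3) := by
  induction s with
  | nil => exact Commute.one_left _
  | cons l w ih =>
    have h2 : ev (l :: w) = (if l.2 then twist l.1 else (twist l.1)⁻¹) * ev w := by simp [ev]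
    rw [h2]
    refine Commute.mul_left ?_ (ih fun x hx => hs x (List.mem_cons_of_mem _ hx))
    have hl : Commute (twist l.1) (sepTwist 3) :=
      sep_comm_L _ (inL_mem _ (hs l List.mem_cons_self))
    split_ifs
    · exact hl
    · exact hl.inv_left

theorem fix_L : ∀ l ∈ Lset, ∀ j, 6 ≤ j % 12 → twist l (vv j) = vv j := by
  intro l hl j hj
  rw [twist_isTab l j]
  have h : ∀ l ∈ Lset, ∀ i < 12, 6 ≤ i → (tabL (l, true)).getD i [] = [2 * i] := by decide +kernel
  rw [h l hl _ (Nat.mod_lt _ (by norm_num)) hj, den, den, mul_one, dl]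
  have h3 : 2 * (j % 12) % 2 = 0 := by omega
  have h4 : 2 * (j % 12) / 2 = j % 12 := by omega
  rw [if_pos h3, h4, vv_mod]

theorem isL_fix {s : Word} (hs : isL s) (j : ℕ) (hj : 6 ≤ j % 12) : ev s (vv j) = vv j := by
  have key : ev s ∈ MulAction.stabilizer (MulAut Pi1) (vv j) := by
    induction s with
    | nil => exact Subgroup.one_mem _
    | cons l w ih =>
      have h2 : ev (l :: w) = (if l.2 then twist l.1 else (twist l.1)⁻¹) * ev w := by simp [ev]
      rw [h2]
      refine Subgroup.mul_mem _ ?_ (ih fun x hx => hs x (List.mem_cons_of_mem _ hx))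
      have hl : twist l.1 ∈ MulAction.stabilizer (MulAut Pi1) (vv j) :=
        fix_L _ (inL_mem _ (hs l List.mem_cons_self)) j hj
      split_ifs
      · exact hl
      · exact Subgroup.inv_mem _ hl
  exact key

/-- The boundary of the right half. -/
def zR : Pi1 := den vv zRw

theorem zR_eq : zR = vv 6 * vv 7 * (vv 6)⁻¹ * (vv 7)⁻¹ * (vv 8 * vv 9 * (vv 8)⁻¹ * (vv 9)⁻¹) *
    (vv 10 * vv 11 * (vv 10)⁻¹ * (vv 11)⁻¹) := by
  simp [zR, zRw, den, dl, mul_assoc]

theorem Pm_vv (j : ℕ) (hj : j < 6) : Pm (vv j) = zR⁻¹ * vv (j + 6) * zR := by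
  have h1 : Pm = (MulAut.conj zR)⁻¹ * sg := by
    rw [sg, zR, inv_mul_cancel_left]
  have h2 : sg (vv j) = vv (j + 6) := by
    rw [sg_isTab j]
    interval_cases j <;> simp [swapT, den, dl]
  rw [h1, MulAut.mul_apply, h2, ← map_inv, MulAut.conj_apply, inv_inv]

theorem isL_Pm {s : Word} (hs : isL s) (j : ℕ) (hj : j < 6) :
    ev s (Pm (vv j)) = Pm (vv j) := by
  rw [Pm_vv j hj]
  have hz : ev s zR = zR := by
    rw [zR_eq]
    simp only [map_mul, map_inv]
    rw [isL_fix hs 6 (by norm_num), isL_fix hs 7 (by norm_num), isL_fix hs 8 (by norm_num),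
      isL_fix hs 9 (by norm_num), isL_fix hs 10 (by norm_num), isL_fix hs 11 (by norm_num)]
  rw [map_mul, map_mul, map_inv, hz, isL_fix hs (j + 6) (by omega)]

section

variable {G : Type} [Group G] (ψ : Pi1 →* G)

/-- The stabiliser of a homomorphism. -/
def stab : Subgroup (MulAut Pi1) where
  carrier := {α | ∀ x, ψ (α x) = ψ x}
  mul_mem' := by
    intro α β hα hβ x
    have hα' : ∀ x, ψ (α x) = ψ x := hα
    have hβ' : ∀ x, ψ (β x) = ψ x := hβ
    rw [MulAut.mul_apply, hα', hβ']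
  one_mem' := fun x => rfl
  inv_mem' := by
    intro α hα x
    have hα' : ∀ x, ψ (α x) = ψ x := hα
    have := hα' (α⁻¹ x)
    rw [MulAut.apply_inv_self] at this
    exact this.symm

variable {ψ}

theorem mem_stab {α : MulAut Pi1} : α ∈ stab ψ ↔ ∀ x, ψ (α x) = ψ x := Iff.rfl

theorem stab_of_gen {α : MulAut Pi1} (h : ∀ j < 12, ψ (α (vv j)) = ψ (vv j)) : α ∈ stab ψ := by
  have : ψ.comp α.toMonoidHom = ψ := by
    apply MonoidHom.eq_of_eqOn_dense vv_gen
    rintro _ ⟨j, rfl⟩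
    rw [← vv_mod j]
    exact h _ (Nat.mod_lt _ (by norm_num))
  exact fun x => DFunLike.congr_fun this x

/-- The lifts of the nonseparating twists preserve the homomorphism. -/
theorem li_stab {s : Word} {f : Word} (h : Ok ψ (dehn (cj s (0, f)))) :
    ev s * li (0, f) * (ev s)⁻¹ ∈ stab ψ := by
  rw [← li_cj]
  refine h.2 _ (dehn_li _).symm ⟨ev (s ++ f), ?_⟩
  rfl

theorem block_stab {s : Word} (hs : isL s) (h : ∀ e ∈ R0e, Ok ψ (dehn (cj s e))) (x : Pi1) :
    ψ ((ev s * Pm * (ev s)⁻¹) x) = ψ (sepTwist 3 x) := by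
  have e1 : ev s * Pm * (ev s)⁻¹ = (ev s * li (0, f0w) * (ev s)⁻¹) *
      ((ev s * li (0, f1w) * (ev s)⁻¹) * ((ev s * li (0, f2w) * (ev s)⁻¹) *
      ((ev s * li (0, f3w) * (ev s)⁻¹) * ((ev s * li (0, f4w) * (ev s)⁻¹) *
      ((ev s * li (0, f5w) * (ev s)⁻¹) * ((ev s * li (0, f6w) * (ev s)⁻¹) *
        (ev s * sepTwist 3 * (ev s)⁻¹))))))) := by
    rw [Pm_eq]
    group
  have e2 : ev s * sepTwist 3 * (ev s)⁻¹ = sepTwist 3 := by
    rw [(sep_comm hs).eq, mul_inv_cancel_right]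
  have hm : ∀ f, ((0 : Fin 4), f) ∈ R0e → ∀ (B : MulAut Pi1) y,
      ψ ((ev s * li (0, f) * (ev s)⁻¹ * B) y) = ψ (B y) := by
    intro f hf B y
    rw [MulAut.mul_apply]
    exact li_stab (h _ hf) (B y)
  rw [e1, e2, hm f0w (by simp [R0e, r0e]), hm f1w (by simp [R0e, r0e]), hm f2w (by simp [R0e, r0e]),
    hm f3w (by simp [R0e, r0e]), hm f4w (by simp [R0e, r0e]), hm f5w (by simp [R0e, r0e]),
    hm f6w (by simp [R0e, r0e])]

end

end Pool.Agent.K6.H47.HW
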