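import Pool.Agent.K6.H47.HW.Neg

set_option autoImplicit false

/-! The second factorization does not have the property (continued). -/

namespace Pool.Agent.K6.H47.HW

open Pool.Agent.Y524H

section

variable {G : Type} [Group G] {ψ : Pi1 →* G}

theorem stab_block {g : G} (h0 : ∀ x, ψ (sepTwist 3 x) = g * ψ x * g⁻¹)
    (hPm : ∀ x, ψ (Pm x) = g * ψ x * g⁻¹) {s : Word} (hs : isL s)
    (h : ∀ e ∈ R0e, Ok ψ (dehn (cj s e))) : ev s ∈ stab ψ := by
  apply stab_of_gen
  intro j hj
  by_cases hj6 : 6 ≤ j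
  · rw [isL_fix hs j (by omega)]
  · have h1 := block_stab hs h (ev s (vv j))
    have h2 : (ev s * Pm * (ev s)⁻¹) (ev s (vv j)) = ev s (Pm (vv j)) := by
      rw [MulAut.mul_apply, MulAut.mul_apply, MulAut.inv_apply_self]
    rw [h2, isL_Pm hs j (by omega), h0, hPm] at h1
    exact (mul_left_cancel (mul_right_cancel h1)).symm

/-- The table of the homomorphism before the last step. -/
def PX : List (List ℕ) := [[], [0], [], [], [], [2], [], [4], [], [], [], [6]]

/-- The values of the homomorphism. -/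
def yx (ψ : Pi1 →* G) : ℕ → G
  | 0 => ψ (vv 1)
  | 1 => ψ (vv 5)
  | 2 => ψ (vv 7)
  | _ => ψ (vv 11)

theorem twist_apply_a (i : Fin 3) : twist (.inl (i.castLE (by norm_num))) (vv (2 * i.val + 1)) =
    vv (2 * i.val + 1) * vv (2 * i.val) := by
  fin_cases i
  · rw [twist_isTab]
    have e : (tabL (.inl ((0 : Fin 3).castLE (by norm_num)), true)).getD (1 % 12) [] = [2, 0] := by
      decide +kernel
    change den vv ((tabL (.inl ((0 : Fin 3).castLE (by norm_num)), true)).getD (1 % 12) []) = _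
    rw [e]
    simp [den, dl]
  · rw [twist_isTab]
    have e : (tabL (.inl ((1 : Fin 3).castLE (by norm_num)), true)).getD (3 % 12) [] = [6, 4] := by
      decide +kernel
    change den vv ((tabL (.inl ((1 : Fin 3).castLE (by norm_num)), true)).getD (3 % 12) []) = _
    rw [e]
    simp [den, dl]
  · rw [twist_isTab]
    have e : (tabL (.inl ((2 : Fin 3).castLE (by norm_num)), true)).getD (5 % 12) [] = [10, 8] := by
      decide +kernel
    change den vv ((tabL (.inl ((2 : Fin 3).castLE (by norm_num)), true)).getD (5 % 12) []) = _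
    rw [e]
    simp [den, dl]

theorem a_kill (i : Fin 3) (h : twist (.inl (i.castLE (by norm_num))) ∈ stab ψ) :
    ψ (vv (2 * i.val)) = 1 := by
  have h1 := mem_stab.1 h (vv (2 * i.val + 1))
  rw [twist_apply_a, map_mul] at h1
  exact mul_eq_left.1 h1

theorem b_kill (h : twist (.inr (.inl 1)) ∈ stab ψ) : ψ (vv 3) = 1 := by
  have h1 := mem_stab.1 h (vv 2)
  rw [twist_isTab] at h1
  have e : (tabL (.inr (.inl 1), true)).getD (2 % 12) [] = [4, 7] := by decide +kernel
  rw [e] at h1
  have e2 : den vv [4, 7] = vv 2 * (vv 3)⁻¹ := by simp [den, dl]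
  rw [e2, map_mul, map_inv] at h1
  exact inv_eq_one.1 (mul_eq_left.1 h1)

/-- The homomorphisms which are preserved by the twists of the second factorization. -/
theorem Phi_of_Ok (rl : List (List (Fin 2 × Bool))) (r : List (Fin 2 × Bool))
    (hOk : ∀ t ∈ (XX rl r).map dehn, Ok ψ t) : ∃ p : Fin 2 → G, ψ = Phi p 1 ∧
      (∀ r' ∈ rl, FreeGroup.lift p (FreeGroup.mk r') = 1) ∧
        FreeGroup.lift p (FreeGroup.mk r) = 1 := by
  have hb : ∀ s, (s = [] ∨ s ∈ Sw rl ∨ s = [lA 0] ∨ s = [lA 2] ∨ s = dw r) → ∀ e ∈ R0e,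
      Ok ψ (dehn (cj s e)) := fun s hs e he =>
    hOk _ (List.mem_map.2 ⟨_, mem_XX rl r s hs e he, rfl⟩)
  have hS0 : ∀ s ∈ S0 rl, s ∈ Sw rl := fun s hs => List.mem_append_left _ hs
  -- the separating twist
  obtain ⟨g, hg⟩ := (hb [] (Or.inl rfl) (3, []) (by simp [R0e, r0e])).1 (sepTwist 3) (by
    have : cj [] (3, []) = ((3 : Fin 4), ([] : Word)) := rfl
    rw [this, dehn_li, li_three])
  have hnil : isL [] := fun x hx => absurd hx (by simp)
  have hPm : ∀ x, ψ (Pm x) = g * ψ x * g⁻¹ := by
    intro x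
    have h1 := block_stab hnil (hb [] (Or.inl rfl)) x
    have e : ev ([] : Word) = 1 := rfl
    have e1 : ∀ A : MulAut Pi1, (1 : MulAut Pi1) * A * (1 : MulAut Pi1)⁻¹ = A := fun A => by group
    rw [e, e1 Pm] at h1
    rw [h1, hg]
  have hstab : ∀ s, isL s → (s = [] ∨ s ∈ Sw rl ∨ s = [lA 0] ∨ s = [lA 2] ∨ s = dw r) →
      ev s ∈ stab ψ := fun s hs hs' => stab_block hg hPm hs (hb s hs')
  have hsingle : ∀ l : Lick, inL l = true → isL [(l, true)] := by
    intro l hl x hx
    rw [List.mem_singleton] at hx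
    subst hx
    exact hl
  have hA0 : twist (.inl 0) ∈ stab ψ := by
    have := hstab [lA 0] (hsingle _ (by decide)) (by simp)
    rwa [ev_single] at this
  have hA2 : twist (.inl 2) ∈ stab ψ := by
    have := hstab [lA 2] (hsingle _ (by decide)) (by simp)
    rwa [ev_single] at this
  have hA1 : twist (.inl 1) ∈ stab ψ := by
    have := hstab [lA 1] (hsingle _ (by decide)) (Or.inr (Or.inl (hS0 _ (by simp [S0]))))
    rwa [ev_single] at this
  have hB1 : twist (.inr (.inl 1)) ∈ stab ψ := by
    have := hstab [lB 1] (hsingle _ (by decide)) (Or.inr (Or.inl (hS0 _ (by simp [S0]))))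
    rwa [ev_single] at this
  have v0 : ψ (vv 0) = 1 := a_kill 0 hA0
  have v2 : ψ (vv 2) = 1 := a_kill 1 hA1
  have v4 : ψ (vv 4) = 1 := a_kill 2 hA2
  have v3 : ψ (vv 3) = 1 := b_kill hB1
  -- the right half
  have hR : ∀ j < 6, (ψ zR)⁻¹ * ψ (vv (j + 6)) * ψ zR = g * ψ (vv j) * g⁻¹ := by
    intro j hj
    rw [← hPm, Pm_vv j hj, map_mul, map_mul, map_inv]
  have hR1 : ∀ j < 6, ψ (vv j) = 1 → ψ (vv (j + 6)) = 1 := by
    intro j hj h
    have h1 := hR j hj
    rw [h, mul_one, mul_inv_cancel] at h1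
    have h2 : ψ (vv (j + 6)) = ψ zR * ((ψ zR)⁻¹ * ψ (vv (j + 6)) * ψ zR) * (ψ zR)⁻¹ := by group
    rw [h2, h1, mul_one, mul_inv_cancel]
  have v6 : ψ (vv 6) = 1 := hR1 0 (by norm_num) v0
  have v8 : ψ (vv 8) = 1 := hR1 2 (by norm_num) v2
  have v9 : ψ (vv 9) = 1 := hR1 3 (by norm_num) v3
  have v10 : ψ (vv 10) = 1 := hR1 4 (by norm_num) v4
  have hzR : ψ zR = 1 := by
    rw [zR_eq]
    simp only [map_mul, map_inv, v6, v8, v9, v10]
    simp
  have hX : HasT ψ (yx ψ) PX := by
    intro j
    rw [← vv_mod j]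
    have h : ∀ i < 12, ψ (vv i) = den (yx ψ) (PX.getD i []) := by
      intro i hi
      interval_cases i <;> simp [PX, den, dl, yx, v0, v2, v3, v4, v6, v8, v9, v10]
    exact h _ (Nat.mod_lt _ (by norm_num))
  have hS : ∀ x, ψ (sepTwist 3 x) = ψ x := by
    have h1 := hX.comp (sep_isTab 3)
    have h2 : comp PX (tabS 3) = PX := by decide +kernel
    rw [h2] at h1
    intro x
    exact DFunLike.congr_fun (h1.ext hX) x
  have hgc : ∀ x, g * ψ x * g⁻¹ = ψ x := fun x => (hg x).symm.trans (hS x)
  have hR2 : ∀ j < 6, ψ (vv (j + 6)) = ψ (vv j) := by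
    intro j hj
    have h1 := hR j hj
    rw [hgc, hzR, inv_one, one_mul, mul_one] at h1
    exact h1
  have v7 : ψ (vv 7) = ψ (vv 1) := hR2 1 (by norm_num)
  have v11 : ψ (vv 11) = ψ (vv 5) := hR2 5 (by norm_num)
  let p : Fin 2 → G := ![ψ (vv 1), ψ (vv 5)]
  have hψ : ψ = Phi p 1 := by
    have h1 : HasT ψ (yy p 1) (PT []) := by
      intro j
      rw [← vv_mod j]
      have h : ∀ i < 12, ψ (vv i) = den (yy p 1) ((PT []).getD i []) := by
        intro i hi
        interval_cases i <;>
          simp [PT, den, dl, yy, p, v0, v2, v3, v4, v6, v7, v8, v9, v10, v11]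
      exact h _ (Nat.mod_lt _ (by norm_num))
    exact h1.ext (Phi_one p)
  have hev2 : ∀ s : G, Phi p s (vv 2) = s := by
    intro s
    rw [Phi_vv]
    simp [PT, den, dl, yy]
  have hev3 : ∀ s : G, Phi p s (vv 3) = 1 := by
    intro s
    rw [Phi_vv]
    rfl
  have hG : ∀ z s x, Phi p s (Gh z x) = Phi p (s * FreeGroup.lift p z) x := fun z s x =>
    DFunLike.congr_fun (Phi_Gh p z s) x
  refine ⟨p, hψ, ?_, ?_⟩
  · intro r' hr'
    have h1 := hstab (Gw r') (isL_Gw r') (Or.inr (Or.inl (hS0 _ (by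
      rw [S0]
      exact List.mem_append_right _ (List.mem_map.2 ⟨r', hr', rfl⟩)))))
    have h2 := mem_stab.1 h1 (vv 2)
    rw [hψ, ev_Gw, hG, hev2, hev2, one_mul] at h2
    exact h2
  · have hdw : isL (dw r) := by
      refine isL_append (isL_append (isL_append (isL_Gw r) (hsingle _ (by decide)))
        (isL_invWd (isL_Gw r))) ?_
      intro x hx
      rw [List.mem_singleton] at hx
      subst hx
      decide
    have h1 := hstab (dw r) hdw (by simp)
    have h2 : Gh (FreeGroup.mk r) * twist (.inl 1) * (Gh (FreeGroup.mk r))⁻¹ ∈ stab ψ := by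
      have h3 := Subgroup.mul_mem _ h1 hA1
      rw [ev_dw, inv_mul_cancel_right] at h3
      exact h3
    have h4 := mem_stab.1 h2 (Gh (FreeGroup.mk r) (vv 3))
    rw [MulAut.mul_apply, MulAut.mul_apply, MulAut.inv_apply_self] at h4
    have h5 : twist (.inl 1) (vv 3) = vv 3 * vv 2 := twist_apply_a 1
    rw [h5, hψ, hG, hG, map_mul, hev3, hev2, one_mul, one_mul] at h4
    exact h4

end

/-- The second factorization does not have the property. -/
theorem not_good_XX (rl : List (List (Fin 2 × Bool))) (r : List (Fin 2 × Bool))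
    (hkill : ∀ (G : Type) [Group G] (p : Fin 2 → G),
      (∀ r' ∈ rl, FreeGroup.lift p (FreeGroup.mk r') = 1) →
      FreeGroup.lift p (FreeGroup.mk r) = 1 → p 0 = 1 ∧ p 1 = 1) :
    ¬ Good ((XX rl r).map dehn) := by
  rintro ⟨G, _, ψ, ⟨x, hx⟩, hOk⟩
  obtain ⟨p, hψ, h1, h2⟩ := Phi_of_Ok rl r hOk
  obtain ⟨h3, h4⟩ := hkill G p h1 h2
  apply hx
  have h5 : ψ = 1 := by
    apply MonoidHom.eq_of_eqOn_dense vv_gen
    rintro _ ⟨j, rfl⟩
    rw [hψ, Phi_one, MonoidHom.one_apply]
    have h : ∀ i < 12, den (yy p 1) ((PT []).getD i []) = 1 := by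
      intro i hi
      interval_cases i <;> simp [PT, den, dl, yy, h3, h4]
    exact h _ (Nat.mod_lt _ (by norm_num))
  rw [h5]
  rfl

/-! The computability of the factorizations. -/

theorem cj_primrec : Primrec₂ cj := by
  have : Primrec (fun p : Word × Entry => ((p.2.1, p.1 ++ p.2.2) : Entry)) :=
    Primrec.pair (Primrec.fst.comp Primrec.snd)
      (Primrec.list_append.comp Primrec.fst (Primrec.snd.comp Primrec.snd))
  exact this

theorem Gw_primrec : Primrec Gw := by
  have h0 : Primrec (fun x : Fin 2 × Bool => if x.2 then Gi x.1 else invWd (Gi x.1)) :=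
    Primrec.dom_finite _
  have h : Primrec₂ (fun (_ : List (Fin 2 × Bool)) (x : Fin 2 × Bool) =>
      if x.2 then Gi x.1 else invWd (Gi x.1)) := h0.comp Primrec.snd
  exact Primrec.list_flatMap Primrec.id h

theorem dw_primrec : Primrec dw := by
  have hf : Primrec (fun l : Lick × Bool => ((l.1, !l.2) : Lick × Bool)) := Primrec.dom_finite _
  have hi : Primrec invWd := by
    have h2 : Primrec₂ (fun (_ : Word) (l : Lick × Bool) => ((l.1, !l.2) : Lick × Bool)) :=
      hf.comp Primrec.snd
    exact Primrec.list_reverse.comp (Primrec.list_map Primrec.id h2)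
  unfold dw
  exact Primrec.list_append.comp (Primrec.list_append.comp (Primrec.list_append.comp Gw_primrec
    (Primrec.const _)) (hi.comp Gw_primrec)) (Primrec.const _)

theorem S0_primrec : Primrec S0 := by
  have h : Primrec (fun rl : List (List (Fin 2 × Bool)) => rl.map Gw) :=
    Primrec.list_map Primrec.id (Gw_primrec.comp Primrec.snd)
  exact Primrec.list_append.comp (Primrec.const _) h

theorem Sw_primrec : Primrec Sw := by
  have h1 : Primrec₂ (fun (p : List (List (Fin 2 × Bool)) × Word) (t : Word) => p.2 ++ t) :=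
    Primrec.list_append.comp (Primrec.snd.comp Primrec.fst) Primrec.snd
  have h2 : Primrec₂ (fun (rl : List (List (Fin 2 × Bool))) (s : Word) =>
      (S0 rl).map fun t => s ++ t) :=
    Primrec.list_map (S0_primrec.comp Primrec.fst) h1
  exact Primrec.list_append.comp S0_primrec (Primrec.list_flatMap S0_primrec h2)

theorem block_primrec : Primrec (fun s : Word => R0e.map (cj s)) :=
  Primrec.list_map (Primrec.const R0e) cj_primrec

theorem tau_primrec : Primrec tau := by
  have h2 : Primrec₂ (fun (_ : List (List (Fin 2 × Bool))) (s : Word) => R0e.map (cj s)) :=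
    block_primrec.comp Primrec.snd
  exact Primrec.list_append.comp (Primrec.const _) (Primrec.list_flatMap Sw_primrec h2)

theorem YY_primrec : Primrec YY :=
  Primrec.list_append.comp (Primrec.list_append.comp tau_primrec (Primrec.const _))
    (Primrec.const _)

theorem XX_primrec : Primrec₂ XX := by
  have h1 : Primrec (fun p : List (List (Fin 2 × Bool)) × List (Fin 2 × Bool) =>
      tau p.1 ++ Aw ++ R0e.map (cj (dw p.2))) :=
    Primrec.list_append.comp (Primrec.list_append.comp (tau_primrec.comp Primrec.fst)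
      (Primrec.const _)) (block_primrec.comp (dw_primrec.comp Primrec.snd))
  exact h1

/-- For a family of pairs of factorizations of the identity it is undecidable whether the members of
a pair are equivalent. In the positive case the members are Hurwitz equivalent, in the negative case
they are not equivalent up to Hurwitz moves and conjugation by any outer automorphisms. -/
theorem reduction : ∃ (X Y : ℕ → List Entry) (P : ℕ → Prop), Computable X ∧ Computable Y ∧
    ¬ ComputablePred P ∧ (∀ n, IsFactorization (X n)) ∧ (∀ n, IsFactorization (Y n)) ∧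
      (∀ n, P n → HurwitzEquiv ((X n).map dehn) ((Y n).map dehn)) ∧
      ∀ n, ¬ P n → ¬ EquivConj (⊤ : Subgroup OutPi) ((X n).map dehn) ((Y n).map dehn) := by
  obtain ⟨rl0, W, hW, hn⟩ := word_problem_two
  refine ⟨fun n => XX (RL rl0 (W n)) (rr (W n)), fun n => YY (RL rl0 (W n)),
    fun n => FreeGroup.mk (W n) ∈ Subgroup.normalClosure (Rel rl0), ?_, ?_, hn,
    fun n => XX_isFactorization _ _, fun n => YY_isFactorization _, ?_, ?_⟩
  · have h1 : Computable (fun w => XX (RL rl0 w) (rr w)) :=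
      (XX_primrec.comp (RL_primrec rl0) rr_primrec).to_comp
    exact h1.comp hW
  · have h1 : Computable (fun w => YY (RL rl0 w)) := (YY_primrec.comp (RL_primrec rl0)).to_comp
    exact h1.comp hW
  · intro n h
    exact (equiv_XX _ _ (mem_of_mem rl0 (W n) h)).symm
  · intro n h hE
    have h1 : Good ((YY (RL rl0 (W n))).map dehn) := good_YY _ (pp_ne_one rl0 (W n) h)
    have h2 : ¬ Good ((XX (RL rl0 (W n)) (rr (W n))).map dehn) :=
      not_good_XX _ _ (fun G _ p hp hr => kill_RL rl0 (W n) p hp hr)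
    exact h2 ((good_iff hE).2 h1)

end Pool.Agent.K6.H47.HW
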