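import Mathlib

set_option autoImplicit false

/-! Permutations which play ping-pong. -/

namespace Pool.Agent.K6.H47.HW

open Cardinal
open scoped Pointwise

theorem prod_equiv {C : Type} (hC : ℵ₀ ≤ #C) {S : Type} (hS : #S ≤ #C) [Nonempty S] :
    Nonempty (S × C ≃ C) := by
  rw [← Cardinal.eq, Cardinal.mk_prod, Cardinal.lift_id, Cardinal.lift_id]
  exact Cardinal.mul_eq_right hC hS (Cardinal.mk_ne_zero S)

/-- The shift. -/
def shiftZ (C : Type) : Multiplicative ℤ →* Equiv.Perm (ℤ × C) where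
  toFun n :=
    { toFun := fun q => (q.1 + n.toAdd, q.2)
      invFun := fun q => (q.1 - n.toAdd, q.2)
      left_inv := fun q => by simp
      right_inv := fun q => by simp }
  map_one' := by ext q <;> simp
  map_mul' m n := by
    ext q
    · change q.1 + (m * n).toAdd = (q.1 + n.toAdd) + m.toAdd
      rw [toAdd_mul]; ring
    · rfl

/-- Every nontrivial group acts on a set with a permutation such that they play ping-pong. -/
theorem exists_shift (V : Type) [Group V] [Nontrivial V] : ∃ (Ω : Type) (act : V →* Equiv.Perm Ω)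
    (a : Equiv.Perm Ω) (B : Set Ω), B.Nonempty ∧ (∀ j : ℤ, j ≠ 0 → ∀ q ∈ B, (a ^ j) q ∉ B) ∧
      ∀ h : V, h ≠ 1 → ∀ q, q ∉ B → act h q ∈ B := by
  classical
  let C : Type := V × ℕ
  have hC : ℵ₀ ≤ #C := by
    rw [Cardinal.aleph0_le_mk_iff]
    infer_instance
  have hVC : #V ≤ #C := Cardinal.mk_le_of_injective (f := fun v : V => ((v, 0) : C))
    (fun x y h => congrArg Prod.fst h)
  have hZC : #ℤ ≤ #C := by
    rw [Cardinal.mk_int]; exact hC
  obtain ⟨v0, hv0⟩ := exists_ne (1 : V)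
  have n1 : Nonempty {v : V // v ≠ 1} := ⟨⟨v0, hv0⟩⟩
  have n2 : Nonempty {v : V // ¬ v ≠ 1} := ⟨⟨1, by simp⟩⟩
  have n3 : Nonempty {i : ℤ // i = 0} := ⟨⟨0, rfl⟩⟩
  have n4 : Nonempty {i : ℤ // ¬ i = 0} := ⟨⟨1, by simp⟩⟩
  obtain ⟨e1⟩ := prod_equiv hC ((Cardinal.mk_subtype_le (fun v : V => v ≠ 1)).trans hVC)
  obtain ⟨e2⟩ := prod_equiv hC ((Cardinal.mk_subtype_le (fun v : V => ¬ v ≠ 1)).trans hVC)
  obtain ⟨e3⟩ := prod_equiv hC ((Cardinal.mk_subtype_le (fun i : ℤ => i = 0)).trans hZC)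
  obtain ⟨e4⟩ := prod_equiv hC ((Cardinal.mk_subtype_le (fun i : ℤ => ¬ i = 0)).trans hZC)
  let f1 : {p : V × C // p.1 ≠ 1} ≃ {q : ℤ × C // q.1 = 0} :=
    (Equiv.prodSubtypeFstEquivSubtypeProd.trans (e1.trans e3.symm)).trans
      Equiv.prodSubtypeFstEquivSubtypeProd.symm
  let f2 : {p : V × C // ¬ p.1 ≠ 1} ≃ {q : ℤ × C // ¬ q.1 = 0} :=
    ((Equiv.prodSubtypeFstEquivSubtypeProd (p := fun v : V => ¬ v ≠ 1)).trans
      (e2.trans e4.symm)).trans
      (Equiv.prodSubtypeFstEquivSubtypeProd (p := fun i : ℤ => ¬ i = 0)).symm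
  let E : V × C ≃ ℤ × C := (Equiv.sumCompl (fun p : V × C => p.1 ≠ 1)).symm.trans
    ((Equiv.sumCongr f1 f2).trans (Equiv.sumCompl (fun q : ℤ × C => q.1 = 0)))
  have hE : ∀ p : V × C, p.1 ≠ 1 ↔ (E p).1 = 0 := by
    intro p
    by_cases hp : p.1 ≠ 1
    · have : E p = (f1 ⟨p, hp⟩).1 := by
        simp only [E, Equiv.trans_apply]
        rw [Equiv.sumCompl_symm_apply_of_pos (p := fun p : V × C => p.1 ≠ 1) hp]
        rfl
      rw [this]
      exact ⟨fun _ => (f1 ⟨p, hp⟩).2, fun _ => hp⟩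
    · have : E p = (f2 ⟨p, hp⟩).1 := by
        simp only [E, Equiv.trans_apply]
        rw [Equiv.sumCompl_symm_apply_of_neg (p := fun p : V × C => p.1 ≠ 1) hp]
        rfl
      rw [this]
      exact ⟨fun h => absurd h hp, fun h => absurd h (f2 ⟨p, hp⟩).2⟩
  let act : V →* Equiv.Perm (V × C) :=
    { toFun := fun h => Equiv.prodCongr (Equiv.mulLeft h) (Equiv.refl C)
      map_one' := by ext p <;> simp
      map_mul' := fun g h => by ext p <;> simp [mul_assoc] }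
  let T : Multiplicative ℤ →* Equiv.Perm (V × C) :=
    (E.symm.permCongrHom : Equiv.Perm (ℤ × C) ≃* Equiv.Perm (V × C)).toMonoidHom.comp (shiftZ C)
  have hT : ∀ j : ℤ, ∀ p, E ((T (Multiplicative.ofAdd 1) ^ j) p) = ((E p).1 + j, (E p).2) := by
    intro j p
    have h1 : T (Multiplicative.ofAdd 1) ^ j = T (Multiplicative.ofAdd j) := by
      rw [← map_zpow, ← ofAdd_zsmul]; simp
    rw [h1]
    change E (E.symm (shiftZ C (Multiplicative.ofAdd j) (E p))) = _
    rw [E.apply_symm_apply]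
    rfl
  refine ⟨V × C, act, T (Multiplicative.ofAdd 1), {p | p.1 ≠ 1}, ⟨(v0, (1, 0)), hv0⟩, ?_, ?_⟩
  · intro j hj q hq h
    have h1 : (E q).1 = 0 := (hE q).1 hq
    have h2 := (hE _).1 h
    rw [hT] at h2
    simp only [h1, zero_add] at h2
    exact hj h2
  · intro h hh q hq
    have hq1 : q.1 = 1 := by
      by_contra hne
      exact hq hne
    change h * q.1 ≠ 1
    rw [hq1, mul_one]
    exact hh

/-- Ping-pong for free groups. -/
theorem lift_injective {ι : Type} (h3 : 3 ≤ #ι) {Ω : Type} (g : ι → Equiv.Perm Ω) (X : ι → Set Ω)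
    (hne : ∀ i, (X i).Nonempty) (hdisj : Pairwise fun i j => Disjoint (X i) (X j))
    (hpp : ∀ i, ∀ k : ℤ, k ≠ 0 → ∀ q, q ∉ X i → (g i ^ k) q ∈ X i) :
    Function.Injective (FreeGroup.lift g : FreeGroup ι →* Equiv.Perm Ω) := by
  classical
  have : FreeGroup.lift g =
      (Monoid.CoprodI.lift fun i => FreeGroup.lift fun _ => g i).comp
        (@freeGroupEquivCoprodI ι).toMonoidHom := by
    ext i
    simp
  rw [this, MonoidHom.coe_comp]
  refine Function.Injective.comp ?_ (MulEquiv.injective freeGroupEquivCoprodI)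
  change Function.Injective (Monoid.CoprodI.lift fun i : ι => FreeGroup.lift fun _ => g i)
  have hnt : Nontrivial ι := by
    have h1 : (1 : Cardinal) < #ι := lt_of_lt_of_le (by norm_num) h3
    exact Cardinal.one_lt_iff_nontrivial.1 h1
  let H : ι → Type _ := fun _i => FreeGroup Unit
  let f : ∀ i, H i →* Equiv.Perm Ω := fun i => FreeGroup.lift fun _ => g i
  refine Monoid.CoprodI.lift_injective_of_ping_pong f (Or.inl h3) X hne hdisj ?_
  rintro i j hij
  refine FreeGroup.freeGroupUnitEquivInt.forall_congr_left.mpr ?_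
  intro n hne1
  change FreeGroup.lift (fun _ => g i) (FreeGroup.of () ^ n) • X j ⊆ X i
  simp only [map_zpow, FreeGroup.lift_apply_of]
  have hnne0 : n ≠ 0 := by
    rintro rfl
    apply hne1
    simp [H, FreeGroup.freeGroupUnitEquivInt]
  rintro _ ⟨q, hq, rfl⟩
  exact hpp i n hnne0 q (fun hqi => (Set.disjoint_left.1 (hdisj hij)) hqi hq)

/-- A sandwich of permutations. -/
theorem sandwich {ι : Type} (h3 : 3 ≤ #ι) {Ω : Type} (a : Equiv.Perm Ω) (B : Set Ω)
    (hB : B.Nonempty) (ha : ∀ j : ℤ, j ≠ 0 → ∀ q ∈ B, (a ^ j) q ∉ B) (n : ι → ℤ)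
    (hn : Function.Injective n) (l : ι → Equiv.Perm Ω)
    (hl : ∀ i, ∀ k : ℤ, k ≠ 0 → ∀ q, q ∉ B → (l i ^ k) q ∈ B) :
    Function.Injective (FreeGroup.lift (fun i => (a ^ n i)⁻¹ * l i * a ^ n i) :
      FreeGroup ι →* Equiv.Perm Ω) := by
  refine lift_injective h3 _ (fun i => {q | (a ^ n i) q ∈ B}) ?_ ?_ ?_
  · intro i
    obtain ⟨q, hq⟩ := hB
    refine ⟨(a ^ n i)⁻¹ q, ?_⟩
    change (a ^ n i) ((a ^ n i)⁻¹ q) ∈ B
    rw [← Equiv.Perm.mul_apply, mul_inv_cancel]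
    exact hq
  · intro i j hij
    rw [Set.disjoint_left]
    intro q hi hj
    have h1 := ha (n j - n i) (sub_ne_zero.2 fun h => hij (hn h).symm) _ hi
    rw [← Equiv.Perm.mul_apply, ← zpow_add, sub_add_cancel] at h1
    exact h1 hj
  · intro i k hk q hq
    have h1 : ((a ^ n i)⁻¹ * l i * a ^ n i) ^ k = (a ^ n i)⁻¹ * l i ^ k * a ^ n i := by
      have := conj_zpow (a := (a ^ n i)⁻¹) (b := l i) (i := k)
      rw [inv_inv] at this
      exact this
    rw [h1]
    change (a ^ n i) (((a ^ n i)⁻¹ * l i ^ k * a ^ n i) q) ∈ B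
    rw [← Equiv.Perm.mul_apply]
    have h2 : a ^ n i * ((a ^ n i)⁻¹ * l i ^ k * a ^ n i) = l i ^ k * a ^ n i := by group
    rw [h2, Equiv.Perm.mul_apply]
    exact hl i k hk _ hq

theorem inv_apply_self' {Ω : Type} (g : Equiv.Perm Ω) (q : Ω) : g⁻¹ (g q) = q :=
  g.symm_apply_apply q

/-- A permutation which maps a set into a proper part has infinite order. -/
theorem zpow_ne_one {Ω : Type} (g : Equiv.Perm Ω) (B P : Set Ω) (hg : ∀ q ∈ B, g q ∈ B ∧ g q ∈ P)
    (hP : ∃ q ∈ B, q ∉ P) (k : ℤ) (hk : k ≠ 0) : g ^ k ≠ 1 := by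
  obtain ⟨q, hq, hqP⟩ := hP
  have h1 : ∀ n : ℕ, (g ^ (n + 1)) q ∈ B ∧ (g ^ (n + 1)) q ∈ P := by
    intro n
    induction n with
    | zero => simpa using hg q hq
    | succ n ih =>
      rw [pow_succ', Equiv.Perm.mul_apply]
      exact hg _ ih.1
  have h2 : ∀ n : ℕ, n ≠ 0 → g ^ n ≠ 1 := by
    intro n hn h
    obtain ⟨m, rfl⟩ := Nat.exists_eq_succ_of_ne_zero hn
    have := (h1 m).2
    rw [show m + 1 = m.succ from rfl, h] at this
    exact hqP this
  intro h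
  rcases Int.natAbs_eq k with h' | h'
  · rw [h', zpow_natCast] at h
    exact h2 _ (Int.natAbs_ne_zero.2 hk) h
  · rw [h', zpow_neg, zpow_natCast, inv_eq_one] at h
    exact h2 _ (Int.natAbs_ne_zero.2 hk) h

/-- A group with a nontrivial element is mapped to a group with an element `b` such that certain
elements have infinite order. -/
theorem exists_orders {U : Type} [Group U] {w : U} (hw : w ≠ 1) (x : Fin 2 → U) :
    ∃ (V : Type) (_ : Group V) (ι : U →* V) (b : V), (∀ k : ℤ, k ≠ 0 → b ^ k ≠ 1) ∧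
      (∀ k : ℤ, k ≠ 0 → (ι w * b * (ι w)⁻¹ * b⁻¹) ^ k ≠ 1) ∧
      ∀ i, ∀ k : ℤ, k ≠ 0 → (ι (x i) * b) ^ k ≠ 1 := by
  have : Nontrivial U := ⟨⟨w, 1, hw⟩⟩
  obtain ⟨Ω, act, b, B, ⟨q0, hq0⟩, hb, hU⟩ := exists_shift U
  have hb1 : ∀ k : ℤ, k ≠ 0 → b ^ k ≠ 1 := by
    intro k hk h
    have := hb k hk q0 hq0
    rw [h] at this
    exact this hq0
  have hb' : ∀ q ∈ B, b q ∉ B := fun q hq => by
    have := hb 1 one_ne_zero q hq
    rwa [zpow_one] at this
  have hbi : ∀ q ∈ B, b⁻¹ q ∉ B := fun q hq => by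
    have := hb (-1) (by norm_num) q hq
    rwa [zpow_neg_one] at this
  have hb2 : b (b q0) ∉ B := by
    have := hb 2 (by norm_num) q0 hq0
    have e : b ^ (2 : ℤ) = b * b := zpow_two b
    rwa [e, Equiv.Perm.mul_apply] at this
  refine ⟨Equiv.Perm Ω, inferInstance, act, b, hb1, ?_, ?_⟩
  · refine zpow_ne_one _ B {q | b⁻¹ ((act w)⁻¹ q) ∈ B} ?_ ?_
    · intro q hq
      have h1 : (act w)⁻¹ (b⁻¹ q) ∈ B := by
        rw [← map_inv]
        exact hU _ (inv_ne_one.2 hw) _ (hbi q hq)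
      have h2 : act w (b ((act w)⁻¹ (b⁻¹ q))) ∈ B := hU _ hw _ (hb' _ h1)
      refine ⟨h2, ?_⟩
      change b⁻¹ ((act w)⁻¹ (act w (b ((act w)⁻¹ (b⁻¹ q))))) ∈ B
      rw [inv_apply_self', inv_apply_self']
      exact h1
    · refine ⟨act w (b (b q0)), hU _ hw _ hb2, ?_⟩
      change b⁻¹ ((act w)⁻¹ (act w (b (b q0)))) ∉ B
      rw [inv_apply_self', inv_apply_self']
      exact hb' _ hq0
  · intro i
    by_cases hi : x i = 1
    · rw [hi, map_one, one_mul]
      exact hb1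
    · refine zpow_ne_one _ B {q | b⁻¹ ((act (x i))⁻¹ q) ∈ B} ?_ ?_
      · intro q hq
        refine ⟨hU _ hi _ (hb' _ hq), ?_⟩
        change b⁻¹ ((act (x i))⁻¹ (act (x i) (b q))) ∈ B
        rw [inv_apply_self', inv_apply_self']
        exact hq
      · refine ⟨act (x i) (b (b q0)), hU _ hi _ hb2, ?_⟩
        change b⁻¹ ((act (x i))⁻¹ (act (x i) (b (b q0)))) ∉ B
        rw [inv_apply_self', inv_apply_self']
        exact hb' _ hq0

end Pool.Agent.K6.H47.HW
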